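import Pool.Agent.Helper34.LT.Fd

/-!
PROJECT LT2, block F, definitions for arbitrary `a`, `b` with `a + b` prime to `q` (`q` not dividing `a`, `b`).

`Helper34.LT.Phi q a b`, `rho`, `lam`, `hl`, `ex`, `Lw`, `Per`, `cls`, `Nk`, `sg`, `nn`, `bt`, `cc`, `ww`, `kk` are
used as they are: here `Phi q a b` is the FULL index set of the curve (all `u` with `q < (ua mod q) + (ub mod q)`,
units or not), `rho` its scale, `lam` its lattice points.
Only the number of gaps changes: `gF q a b = (Phi q a b).card` instead of `(q - 1) / 2`.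
-/

namespace Pool.Agent.Helper65.LU

open Finset Filter Pool.Agent.Helper34.LT

noncomputable section

/-- the genus = number of gaps of the semigroup `sg q a b` -/
def gF (q a b : ℕ) : ℕ := (Phi q a b).card

/-- `M(t)_{ij}` = coefficient of `s^{-(g+i)}` in `e^{xi(t)} w_{n_j}` (without weight), `g = gF` -/
def Mt (q a b : ℕ) (t : Phi q a b → ℂ) : Mat := fun i j =>
  ∑' p : ℕ, if nn q a b j ≤ gF q a b + i + q * p then
    (cc (bt q a b (nn q a b j)) p : ℂ) * hl q a b t (gF q a b + i + q * p - nn q a b j) else 0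

/-- the tau function -/
def tauF (q a b : ℕ) (t : Phi q a b → ℂ) : ℂ :=
  limUnder atTop fun N => (trn (Mt q a b t) N).det

/-- the structure theorem F1, interface between F1-F3 and F7-F9 -/
structure Fac (q a b : ℕ) (U V : Mat) (K : (Phi q a b → ℂ) → Mat) : Prop where
  bU : Bd U
  bV : Bd V
  UV : mmul U V = mone
  VU : mmul V U = mone
  upp : ∀ i j, j < i → U i j = 0
  dia : ∀ i, U i i = 1
  bL : ∀ t, Bd (Lw q a b t)
  L0 : Lw q a b 0 = mone
  Ladd : ∀ s t, Lw q a b (s + t) = mmul (Lw q a b s) (Lw q a b t)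
  Lhol : ∀ i j, Differentiable ℂ (fun t => Lw q a b t i j)
  Ldom : ∀ R : ℝ, ∃ B : ℕ → ℝ, Summable B ∧ ∀ t, ‖t‖ ≤ R → ∀ i j, j ≤ i → ‖Lw q a b t i j‖ ≤ B (i - j)
  sK : ∀ t, Sm (K t)
  fac : ∀ t, wt (Mt q a b t) = mmul (mmul (Lw q a b t) (mone + K t)) U
  tau : ∀ t, tauF q a b t = fd (K t)

end

end Pool.Agent.Helper65.LU
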