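import Mathlib

/-!
# The number pi is transcendental

From the analytic part of the Lindemann-Weierstrass theorem.
-/

set_option autoImplicit false

namespace Pool.Agent.Helper65.LU.Pi

open Polynomial Finset

open scoped Nat

/-- an algebraic number has a nonzero integral multiple, uniformly in a finite family -/
theorem exists_denom {L : Type*} [Field L] [Algebra ℚ L] [FiniteDimensional ℚ L] (x : L) :
    ∃ a : ℤ, a ≠ 0 ∧ IsIntegral ℤ ((a : L) * x) := by
  have h1 : IsAlgebraic ℚ x := Algebra.IsAlgebraic.isAlgebraic x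
  have h2 : IsAlgebraic ℤ x := (IsFractionRing.isAlgebraic_iff ℤ ℚ L).2 h1
  obtain ⟨y, hy, h3⟩ := h2.exists_integral_multiple
  refine ⟨y, hy, ?_⟩
  rwa [zsmul_eq_mul] at h3

/-- values of integer polynomials at numbers with bounded denominators -/
theorem integral_aeval {L : Type*} [Field L] [Algebra ℚ L] (a : ℤ) (b : L)
    (h : IsIntegral ℤ ((a : L) * b)) (g : ℤ[X]) (N : ℕ) (hN : g.natDegree ≤ N) :
    IsIntegral ℤ ((a : L) ^ N * aeval b g) := by
  rw [aeval_eq_sum_range, Finset.mul_sum]
  refine IsIntegral.sum _ fun i hi => ?_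
  rw [Finset.mem_range] at hi
  have h1 : (a : L) ^ N * (g.coeff i • b ^ i) =
      ((g.coeff i * a ^ (N - i) : ℤ) : L) * ((a : L) * b) ^ i := by
    have h2 : (a : L) ^ N = (a : L) ^ (N - i) * (a : L) ^ i := by
      rw [← pow_add]
      congr 1
      omega
    rw [h2, zsmul_eq_mul, mul_pow]
    push_cast
    ring
  rw [h1]
  exact (isIntegral_algebraMap (R := ℤ) (A := L) (x := g.coeff i * a ^ (N - i))).mul (h.pow i)

/-- the sum over all subsets is rational -/
theorem rational_sum {L : Type*} [Field L] [Algebra ℚ L] [FiniteDimensional ℚ L] [IsGalois ℚ L]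
    [Fintype (L ≃ₐ[ℚ] L)] [DecidableEq (L ≃ₐ[ℚ] L)] (x : L) (g : ℤ[X]) :
    ∃ y : ℚ, algebraMap ℚ L y = ∑ T : Finset (L ≃ₐ[ℚ] L), aeval (∑ s ∈ T, s x) g := by
  have h : (∑ T : Finset (L ≃ₐ[ℚ] L), aeval (∑ s ∈ T, s x) g) ∈
      (⊥ : IntermediateField ℚ L) := by
    rw [IsGalois.mem_bot_iff_fixed]
    intro t
    rw [map_sum]
    refine Fintype.sum_equiv (Equiv.finsetCongr (Equiv.mulLeft t)) _ _ fun T => ?_
    have h1 : t (aeval (∑ s ∈ T, s x) g) = aeval (t (∑ s ∈ T, s x)) g := by
      have := Polynomial.aeval_algHom_apply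
        ((t : L →ₐ[ℚ] L).restrictScalars ℤ) (∑ s ∈ T, s x) g
      exact this.symm
    rw [h1, map_sum]
    congr 2
    rw [Equiv.finsetCongr_apply, Finset.sum_map]
    rfl
  rw [IntermediateField.mem_bot] at h
  exact h

/-- finitely many nonzero algebraic numbers are roots of an integer polynomial with nonzero
constant coefficient -/
theorem exists_poly {L : Type*} [Field L] [Algebra ℚ L] [FiniteDimensional ℚ L] {I : Type*}
    (s : Finset I) (b : I → L) (hb : ∀ i ∈ s, b i ≠ 0) :
    ∃ f : ℤ[X], f.eval 0 ≠ 0 ∧ ∀ i ∈ s, aeval (b i) f = 0 := by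
  classical
  induction s using Finset.induction_on with
  | empty => exact ⟨1, by simp, by simp⟩
  | insert i s hi ih =>
    obtain ⟨f, hf0, hf⟩ := ih fun j hj => hb j (Finset.mem_insert_of_mem hj)
    have h1 : IsAlgebraic ℤ (b i) :=
      (IsFractionRing.isAlgebraic_iff ℤ ℚ L).2 (Algebra.IsAlgebraic.isAlgebraic (b i))
    obtain ⟨q, hq0, hq⟩ := h1.exists_nonzero_coeff_and_aeval_eq_zero
      (mem_nonZeroDivisors_of_ne_zero (hb i (Finset.mem_insert_self i s)))
    refine ⟨q * f, ?_, ?_⟩
    · rw [eval_mul, ← coeff_zero_eq_eval_zero]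
      exact mul_ne_zero hq0 hf0
    · intro j hj
      rw [map_mul]
      rcases Finset.mem_insert.1 hj with rfl | hj
      · rw [hq, zero_mul]
      · rw [hf j hj, mul_zero]

theorem core {L : Type*} [Field L] [Algebra ℚ L] [FiniteDimensional ℚ L] [IsGalois ℚ L]
    (e : L →ₐ[ℚ] ℂ) (x : L) (h : 1 + Complex.exp (e x) = 0) : False := by
  classical
  let G := L ≃ₐ[ℚ] L
  let _ : Fintype G := Fintype.ofFinite G
  let b : Finset G → L := fun T => ∑ s ∈ T, s x
  -- the product is zero
  have h0 : ∑ T : Finset G, Complex.exp (e (b T)) = 0 := by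
    have h1 : ∏ s : G, (1 + Complex.exp (e (s x))) = 0 :=
      Finset.prod_eq_zero (Finset.mem_univ (1 : G)) h
    rw [Finset.prod_one_add, Finset.powerset_univ] at h1
    rw [← h1]
    refine Finset.sum_congr rfl fun T _ => ?_
    simp only [b]
    rw [map_sum, Complex.exp_sum]
  -- zero and nonzero sums
  let Z : Finset (Finset G) := Finset.univ.filter fun T => b T = 0
  let B : Finset (Finset G) := Finset.univ.filter fun T => ¬ b T = 0
  have hsplit : ∀ (F : Finset G → ℂ),
      ∑ T : Finset G, F T = ∑ T ∈ Z, F T + ∑ T ∈ B, F T := fun F =>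
    (Finset.sum_filter_add_sum_filter_not Finset.univ _ F).symm
  have hsplit2 : ∀ (F : Finset G → L),
      ∑ T : Finset G, F T = ∑ T ∈ Z, F T + ∑ T ∈ B, F T := fun F =>
    (Finset.sum_filter_add_sum_filter_not Finset.univ _ F).symm
  have hk : 1 ≤ Z.card := by
    rw [Finset.one_le_card]
    exact ⟨∅, by simp [Z, b]⟩
  have h2 : (Z.card : ℂ) + ∑ T ∈ B, Complex.exp (e (b T)) = 0 := by
    rw [← h0, hsplit]
    congr 1
    rw [Finset.sum_congr rfl (g := fun _ => (1 : ℂ))]
    · simp
    · intro T hT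
      rw [(Finset.mem_filter.1 hT).2, map_zero, Complex.exp_zero]
  -- denominators
  obtain ⟨a, ha, hax⟩ := exists_denom x
  have hab : ∀ T, IsIntegral ℤ ((a : L) * b T) := by
    intro T
    simp only [b]
    rw [Finset.mul_sum]
    refine IsIntegral.sum _ fun s _ => ?_
    have h3 : (a : L) * s x = s ((a : L) * x) := by
      rw [map_mul, map_intCast]
    rw [h3]
    exact hax.map ((s : L →ₐ[ℚ] L).restrictScalars ℤ)
  obtain ⟨f, hf0, hf⟩ := exists_poly B b fun T hT => (Finset.mem_filter.1 hT).2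
  have hfne : f ≠ 0 := by
    rintro rfl
    simp at hf0
  obtain ⟨c, hc⟩ := LindemannWeierstrass.exp_polynomial_approx f hf0
  -- the main estimate
  have key : ∀ p : ℕ, p.Prime → (eval 0 f).natAbs < p → a.natAbs < p → Z.card < p →
      1 ≤ (B.card : ℝ) * (((a.natAbs : ℝ) ^ f.natDegree) ^ p * (c ^ p / (p - 1)!)) := by
    intro p hp h3 h4 h5
    obtain ⟨n, hn, g, hg, hr⟩ := hc p h3 hp
    set N := p * f.natDegree with hN
    have hgN : g.natDegree ≤ N := hg.trans (Nat.sub_le _ _)
    -- the integer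
    obtain ⟨y, hy⟩ := rational_sum x g
    have hz : ∃ z : ℤ, (z : L) = (a : L) ^ N * ∑ T ∈ B, aeval (b T) g := by
      have h6 : ∑ T ∈ B, aeval (b T) g = algebraMap ℚ L (y - Z.card * g.eval 0) := by
        have h7 : ∑ T : Finset G, aeval (b T) g = algebraMap ℚ L y := hy.symm
        rw [hsplit2] at h7
        have h8 : ∑ T ∈ Z, aeval (b T) g = algebraMap ℚ L (Z.card * g.eval 0) := by
          rw [Finset.sum_congr rfl (g := fun _ => ((g.eval 0 : ℤ) : L))]
          · rw [Finset.sum_const, nsmul_eq_mul, map_mul, map_natCast, map_intCast]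
          · intro T hT
            rw [(Finset.mem_filter.1 hT).2]
            have := Polynomial.aeval_algebraMap_apply_eq_algebraMap_eval (A := L) (0 : ℤ) g
            simpa using this
        rw [map_sub, ← h7, h8]
        ring
      have h7 : IsIntegral ℤ ((a : L) ^ N * ∑ T ∈ B, aeval (b T) g) := by
        rw [Finset.mul_sum]
        exact IsIntegral.sum _ fun T _ => integral_aeval a (b T) (hab T) g N hgN
      have h8 : (a : L) ^ N * ∑ T ∈ B, aeval (b T) g =
          algebraMap ℚ L ((a : ℚ) ^ N * (y - Z.card * g.eval 0)) := by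
        rw [h6, map_mul, map_pow, map_intCast]
      rw [h8] at h7 ⊢
      rw [isIntegral_algebraMap_iff (algebraMap ℚ L).injective] at h7
      obtain ⟨z, hz⟩ := IsIntegrallyClosed.isIntegral_iff.1 h7
      refine ⟨z, ?_⟩
      rw [← hz]
      simp
    obtain ⟨z, hz⟩ := hz
    -- the value
    set M : ℤ := a ^ N * (n * Z.card) + p * z with hM
    have hMne : M ≠ 0 := by
      intro h6
      have h7 : (p : ℤ) ∣ a ^ N * (n * Z.card) := by
        have : a ^ N * (n * Z.card) = p * (-z) := by linarith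
        rw [this]
        exact dvd_mul_right _ _
      have hpp : Prime (p : ℤ) := Nat.prime_iff_prime_int.1 hp
      rcases hpp.dvd_or_dvd h7 with h8 | h8
      · have h9 := hpp.dvd_of_dvd_pow h8
        have h10 := Nat.le_of_dvd (Int.natAbs_pos.2 ha) (Int.natCast_dvd.1 h9)
        omega
      · rcases hpp.dvd_or_dvd h8 with h9 | h9
        · exact hn h9
        · have h10 := Nat.le_of_dvd hk (Int.natCast_dvd_natCast.1 h9)
          omega
    have hMc : (M : ℂ) = -((a : ℂ) ^ N * ∑ T ∈ B,
        (n • Complex.exp (e (b T)) - p • aeval (e (b T)) g)) := by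
      have h6 : (z : ℂ) = (a : ℂ) ^ N * ∑ T ∈ B, aeval (e (b T)) g := by
        have h7 := congrArg e hz
        rw [map_intCast, map_mul, map_pow, map_intCast, map_sum] at h7
        rw [h7]
        congr 1
        refine Finset.sum_congr rfl fun T _ => ?_
        exact (Polynomial.aeval_algHom_apply (e.restrictScalars ℤ) (b T) g).symm
      rw [hM, Finset.sum_sub_distrib, ← Finset.smul_sum, ← Finset.smul_sum]
      push_cast
      rw [h6, zsmul_eq_mul, nsmul_eq_mul]
      have h7 : (Z.card : ℂ) = -∑ T ∈ B, Complex.exp (e (b T)) := by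
        linear_combination h2
      rw [h7]
      ring
    have h6 : (1 : ℝ) ≤ ‖(M : ℂ)‖ := by
      rw [Complex.norm_intCast]
      exact_mod_cast Int.one_le_abs hMne
    refine h6.trans ?_
    rw [hMc, norm_neg, norm_mul, norm_pow, Complex.norm_intCast]
    have h7 : ‖∑ T ∈ B, (n • Complex.exp (e (b T)) - p • aeval (e (b T)) g)‖ ≤
        B.card * (c ^ p / (p - 1)!) := by
      refine (norm_sum_le _ _).trans ?_
      rw [← nsmul_eq_mul]
      refine Finset.sum_le_card_nsmul _ _ _ fun T hT => ?_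
      refine hr ?_
      rw [mem_aroots]
      refine ⟨hfne, ?_⟩
      have h8 := congrArg e (hf T hT)
      rw [map_zero] at h8
      rw [← h8]
      exact Polynomial.aeval_algHom_apply (e.restrictScalars ℤ) (b T) f
    have h8 : (|(a : ℝ)|) ^ N = ((a.natAbs : ℝ) ^ f.natDegree) ^ p := by
      rw [hN, mul_comm p, pow_mul, Nat.cast_natAbs, Int.cast_abs]
    rw [h8]
    calc ((a.natAbs : ℝ) ^ f.natDegree) ^ p *
          ‖∑ T ∈ B, (n • Complex.exp (e (b T)) - p • aeval (e (b T)) g)‖
        ≤ ((a.natAbs : ℝ) ^ f.natDegree) ^ p * (B.card * (c ^ p / (p - 1)!)) := by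
          gcongr
      _ = _ := by ring
  -- the limit
  have hlim : Filter.Tendsto (fun k : ℕ => (B.card : ℝ) *
      ((((a.natAbs : ℝ) ^ f.natDegree) * c) *
        ((((a.natAbs : ℝ) ^ f.natDegree) * c) ^ k / k !))) Filter.atTop (nhds 0) := by
    have h3 := FloorSemiring.tendsto_pow_div_factorial_atTop (((a.natAbs : ℝ) ^ f.natDegree) * c)
    have h4 := (h3.const_mul (((a.natAbs : ℝ) ^ f.natDegree) * c)).const_mul (B.card : ℝ)
    simpa using h4
  have hev := (hlim.eventually (gt_mem_nhds (zero_lt_one' ℝ)))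
  obtain ⟨K, hK⟩ := Filter.eventually_atTop.1 hev
  obtain ⟨p, hp1, hp⟩ := Nat.exists_infinite_primes
    (K + (eval 0 f).natAbs + a.natAbs + Z.card + 2)
  have h3 := key p hp (by omega) (by omega) (by omega)
  have h4 := hK (p - 1) (by omega)
  refine absurd h3 (not_le.2 ?_)
  convert h4 using 2
  have h5 : ∀ u : ℝ, u ^ p = u * u ^ (p - 1) := by
    intro u
    rw [← pow_succ']
    congr 1
    omega
  rw [← mul_div_assoc, ← mul_pow, h5, mul_div_assoc]

theorem exists_galois {F E : Type} [Field F] [Field E] [Algebra F E] [IsAlgClosed E] [CharZero F]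
    {x : E} (hx : IsAlgebraic F x) : ∃ L : IntermediateField F E,
    FiniteDimensional F L ∧ IsGalois F L ∧ x ∈ L := by
  have h0 : minpoly F x ≠ 0 := minpoly.ne_zero hx.isIntegral
  have h1 : ((minpoly F x).map (algebraMap F E)).Splits := IsAlgClosed.splits _
  have h2 : (minpoly F x).IsSplittingField F
      (IntermediateField.adjoin F ((minpoly F x).rootSet E)) :=
    IntermediateField.adjoin_rootSet_isSplittingField h1
  refine ⟨IntermediateField.adjoin F ((minpoly F x).rootSet E), ?_, ?_, ?_⟩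
  · exact Polynomial.IsSplittingField.finiteDimensional _ (minpoly F x)
  · exact IsGalois.of_separable_splitting_field (minpoly.irreducible hx.isIntegral).separable
  · refine IntermediateField.subset_adjoin F _ ?_
    rw [mem_rootSet]
    exact ⟨h0, minpoly.aeval F x⟩

theorem isAlgebraic_false {x : ℂ} (hx : IsAlgebraic ℚ x) (h : 1 + Complex.exp x = 0) : False := by
  obtain ⟨L, h1, h2, h3⟩ := exists_galois hx
  exact core L.val ⟨x, h3⟩ h

theorem transcendental_pi : Transcendental ℚ Real.pi := by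
  intro h
  have h1 : IsAlgebraic ℚ (Real.pi : ℂ) := h.algebraMap
  have h2 : IsAlgebraic ℚ Complex.I := by
    refine ⟨X ^ 2 + 1, ?_, by simp⟩
    intro h3
    have := congrArg (fun q : ℚ[X] => q.eval 1) h3
    norm_num at this
  refine isAlgebraic_false (h1.mul h2) ?_
  rw [Complex.exp_pi_mul_I]
  norm_num

end Pool.Agent.Helper65.LU.Pi
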