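import Pool.Agent.Helper34.LU.Df

/-!
PROJECT LT2, block F: from the full index set to the units. `unit_main` is the input of `G_gen`.
-/

namespace Pool.Agent.Helper65.LU

open Finset Filter Pool.Agent.Helper34.LT Pool.Agent.Helper34.LU LTG
open Pool.Agent.Helper44.LT (PU)

noncomputable section

theorem mem_PU {q a b u : ℕ} : u ∈ PU q a b ↔ u ∈ Phi q a b ∧ Nat.Coprime u q := mem_filter

/-- tau function on the unit coordinates, input of block G -/
structure IsTauU (q a b : ℕ) (τ : (PU q a b → ℂ) → ℂ) : Prop where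
  diff : Differentiable ℂ τ
  zero : τ 0 = 0
  ne : ∃ z, τ z ≠ 0
  rt : ∃ D : ℕ, 1 ≤ D ∧ RT D 1 τ
  sym : ∃ w : ℕ, ∀ z : PU q a b → ℂ,
    τ (fun u => zt q ^ ((u : ℕ) * (a + b)) * z u) = zt q ^ w * τ z
  per : ∀ P : Polynomial ℤ, ∃ (l : (PU q a b → ℂ) →ₗ[ℂ] ℂ) (c : ℂ), ∀ z,
    τ (z + lamS q (PU q a b) (rhU q a b) P) = Complex.exp (l z + c) * τ z

theorem psq_zero {q u : ℕ} (h1 : 1 ≤ u) (h2 : u ≤ q - 1) (hu : ¬ Nat.Coprime u q) :
    Polynomial.aeval (zt q ^ u) (psq q) = 0 := by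
  have hq : q ≠ 0 := by omega
  have hp : IsPrimitiveRoot (zt q) q := Complex.isPrimitiveRoot_exp q hq
  have hg : 0 < q.gcd u := Nat.gcd_pos_of_pos_right _ (by omega)
  have hprim : IsPrimitiveRoot (zt q ^ u) (q / q.gcd u) := by
    have h3 := hp.pow_of_dvd (p := q.gcd u) hg.ne' (Nat.gcd_dvd_left q u)
    have h4 : zt q ^ u = (zt q ^ q.gcd u) ^ (u / q.gcd u) := by
      rw [← pow_mul, Nat.mul_div_cancel' (Nat.gcd_dvd_right q u)]
    rw [h4]
    exact h3.pow_of_coprime _ (Nat.coprime_div_gcd_div_gcd hg).symm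
  have hd : q / q.gcd u ∈ q.properDivisors := by
    rw [Nat.mem_properDivisors]
    refine ⟨Nat.div_dvd_of_dvd (Nat.gcd_dvd_left q u), Nat.div_lt_self (by omega) ?_⟩
    rcases Nat.lt_or_ge 1 (q.gcd u) with h | h
    · exact h
    · exfalso
      apply hu
      have : q.gcd u = 1 := by omega
      rwa [Nat.coprime_comm]
  unfold psq
  rw [map_prod]
  refine Finset.prod_eq_zero hd ?_
  have hpos : 0 < q / q.gcd u := Nat.div_pos (Nat.gcd_le_left u (by omega)) hg
  have hroot := hprim.isRoot_cyclotomic (R := ℂ) hpos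
  rw [Polynomial.aeval_def, ← Polynomial.eval_map]
  have : (Polynomial.cyclotomic (q / q.gcd u) ℤ).map (algebraMap ℤ ℂ) = Polynomial.cyclotomic (q / q.gcd u) ℂ :=
    Polynomial.map_cyclotomic _ _
  rw [this]
  exact hroot

/-- extension by zero -/
def exU (q a b : ℕ) {R : Type} [Zero R] (z : PU q a b → R) : Phi q a b → R := fun u =>
  if h : Nat.Coprime u q then z ⟨u, mem_PU.2 ⟨u.2, h⟩⟩ else 0

/-- restriction -/
def reU (q a b : ℕ) {R : Type} (z : Phi q a b → R) : PU q a b → R := fun u =>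
  z ⟨u, (mem_PU.1 u.2).1⟩

theorem re_ex {q a b : ℕ} {R : Type} [Zero R] (z : PU q a b → R) : reU q a b (exU q a b z) = z := by
  funext u
  unfold reU exU
  exact dif_pos (mem_PU.1 u.2).2

theorem ex_re {q a b : ℕ} {R : Type} [Zero R] (z : Phi q a b → R)
    (h : ∀ u : Phi q a b, ¬ Nat.Coprime u q → z u = 0) : exU q a b (reU q a b z) = z := by
  funext u
  unfold reU exU
  by_cases h1 : Nat.Coprime u q
  · rw [dif_pos h1]
  · rw [dif_neg h1, h u h1]

theorem ex_of {q a b : ℕ} {R : Type} [Zero R] (z : PU q a b → R) {u : Phi q a b} (h : Nat.Coprime u q) :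
    exU q a b z u = z ⟨u, mem_PU.2 ⟨u.2, h⟩⟩ := dif_pos h

theorem ex_not {q a b : ℕ} {R : Type} [Zero R] (z : PU q a b → R) {u : Phi q a b} (h : ¬ Nat.Coprime u q) :
    exU q a b z u = 0 := dif_neg h

theorem ex_coe {q a b : ℕ} {R : Type} [Zero R] (z : PU q a b → R) (u : PU q a b) :
    exU q a b z ⟨u, (mem_PU.1 u.2).1⟩ = z u := congrFun (re_ex z) u

/-- as a linear map -/
def exL (q a b : ℕ) : (PU q a b → ℂ) →ₗ[ℂ] (Phi q a b → ℂ) where
  toFun := exU q a b
  map_add' x y := by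
    funext u
    by_cases h : Nat.Coprime u q
    · rw [Pi.add_apply, ex_of _ h, ex_of _ h, ex_of _ h, Pi.add_apply]
    · rw [Pi.add_apply, ex_not _ h, ex_not _ h, ex_not _ h, add_zero]
  map_smul' c x := by
    funext u
    by_cases h : Nat.Coprime u q
    · rw [Pi.smul_apply, ex_of _ h, ex_of _ h, Pi.smul_apply]
      rfl
    · rw [Pi.smul_apply, ex_not _ h, ex_not _ h, smul_zero]

theorem prod_ex {q a b : ℕ} {R : Type} [CommMonoid R] (f : Phi q a b → R)
    (hf : ∀ u : Phi q a b, ¬ Nat.Coprime u q → f u = 1) :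
    ∏ u, f u = ∏ u, reU q a b f u := by
  classical
  symm
  refine Finset.prod_of_injOn (fun u : PU q a b => (⟨u, (mem_PU.1 u.2).1⟩ : Phi q a b)) ?_ ?_ ?_ ?_
  · intro u _ v _ h
    exact Subtype.ext (congrArg (fun x : Phi q a b => (x : ℕ)) h)
  · intro u _
    simp
  · intro u _ h
    apply hf
    intro h1
    exact h ⟨⟨u, mem_PU.2 ⟨u.2, h1⟩⟩, by simp, rfl⟩
  · intro u _
    rfl

theorem RT_ex {q a b D : ℕ} {f : (Phi q a b → ℂ) → ℂ} (h : RT D 1 f) :
    RT D 1 (fun z : PU q a b → ℂ => f (exU q a b z)) := by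
  classical
  obtain ⟨A, hA⟩ := h
  refine ⟨fun m => A (exU q a b m), fun z => ?_⟩
  have h1 := hA (exU q a b z)
  have hinj : Function.Injective (exU q a b : (PU q a b → ℕ) → (Phi q a b → ℕ)) := by
    intro x y hxy
    rw [← re_ex x, ← re_ex y, hxy]
  rw [← hinj.hasSum_iff] at h1
  · refine h1.congr_fun fun m => ?_
    have e1 : ∑ u, exU q a b m u = ∑ u, m u := by
      have := prod_ex (q := q) (a := a) (b := b) (R := Multiplicative ℕ)
        (fun u => Multiplicative.ofAdd (exU q a b m u)) (fun u hu => by rw [ex_not _ hu]; rfl)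
      have h2 : ∑ u, exU q a b m u = ∑ u, reU q a b (exU q a b m) u := this
      rw [h2, re_ex]
    have e2 : ∏ u, ((exU q a b m u).factorial : ℂ) = ∏ u, ((m u).factorial : ℂ) := by
      rw [prod_ex _ (fun u hu => by rw [ex_not _ hu]; simp)]
      refine Finset.prod_congr rfl fun u _ => ?_
      show ((exU q a b m ⟨u, (mem_PU.1 u.2).1⟩).factorial : ℂ) = ((m u).factorial : ℂ)
      rw [ex_coe]
    have e3 : ∏ u, exU q a b z u ^ exU q a b m u = ∏ u, z u ^ m u := by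
      rw [prod_ex _ (fun u hu => by rw [ex_not _ hu, ex_not _ hu]; simp)]
      refine Finset.prod_congr rfl fun u _ => ?_
      show exU q a b z ⟨u, (mem_PU.1 u.2).1⟩ ^ exU q a b m ⟨u, (mem_PU.1 u.2).1⟩ = z u ^ m u
      rw [ex_coe, ex_coe]
    show _ = (A (exU q a b m) : ℂ) / ((D : ℂ) ^ (∑ u, exU q a b m u + 1) * ∏ u, ((exU q a b m u).factorial : ℂ)) *
      ∏ u, exU q a b z u ^ exU q a b m u
    rw [e1, e2, e3]
  · intro m hm
    have : ∃ u : Phi q a b, ¬ Nat.Coprime u q ∧ m u ≠ 0 := by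
      by_contra hc
      push Not at hc
      exact hm ⟨reU q a b m, ex_re m hc⟩
    obtain ⟨u, hu, hmu⟩ := this
    have : ∏ u, exU q a b z u ^ m u = 0 :=
      Finset.prod_eq_zero (mem_univ u) (by rw [ex_not _ hu, zero_pow hmu])
    rw [this, mul_zero]

theorem lam_ex (q a b : ℕ) (P : Polynomial ℤ) : lam q a b (psq q * P) = exU q a b (lamS q (PU q a b) (rhU q a b) P) := by
  funext u
  have hI := mem_Icc.1 (mem_filter.1 u.2).1
  by_cases h : Nat.Coprime u q
  · rw [ex_of _ h]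
    unfold lam lamS rhU pt
    rw [map_mul]
    ring
  · rw [ex_not _ h]
    unfold lam pt
    rw [map_mul, psq_zero hI.1 hI.2 h]
    ring

theorem toU {q a b : ℕ} {τ : (Phi q a b → ℂ) → ℂ} (h : IsTauF q a b τ) :
    IsTauU q a b (fun z => τ (exU q a b z)) := by
  refine ⟨?_, ?_, ?_, ?_, ?_, ?_⟩
  · exact h.diff.comp (LinearMap.toContinuousLinearMap (exL q a b)).differentiable
  · have : exU q a b (0 : PU q a b → ℂ) = 0 := (exL q a b).map_zero
    show τ (exU q a b 0) = 0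
    rw [this, h.zero]
  · obtain ⟨z, hz, hne⟩ := h.ne
    refine ⟨reU q a b z, ?_⟩
    show τ (exU q a b (reU q a b z)) ≠ 0
    rwa [ex_re z hz]
  · obtain ⟨D, hD, hR⟩ := h.rt
    exact ⟨D, hD, RT_ex hR⟩
  · obtain ⟨w, hw⟩ := h.sym
    refine ⟨w, fun z => ?_⟩
    show τ (exU q a b _) = zt q ^ w * τ (exU q a b z)
    rw [← hw]
    congr 1
    funext u
    by_cases h1 : Nat.Coprime u q
    · rw [ex_of _ h1, ex_of _ h1]
    · rw [ex_not _ h1, ex_not _ h1, mul_zero]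
  · intro P
    obtain ⟨l, c, hl⟩ := h.per (psq q * P)
    refine ⟨l.comp (exL q a b), c, fun z => ?_⟩
    have h1 := hl (exU q a b z)
    rw [lam_ex] at h1
    have h2 : exU q a b (z + lamS q (PU q a b) (rhU q a b) P) = exU q a b z + exU q a b (lamS q (PU q a b) (rhU q a b) P) :=
      (exL q a b).map_add _ _
    show τ (exU q a b (z + lamS q (PU q a b) (rhU q a b) P)) = _
    rw [h2, h1]
    rfl

/-- the input of block G for the units -/
theorem unit_main (q a b : ℕ) (τ : (Phi q a b → ℂ) → ℂ) (h : IsTauF q a b τ) :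
    ∃ τ' : (PU q a b → ℂ) → ℂ, Differentiable ℂ τ' ∧ τ' 0 = 0 ∧ (∃ z, τ' z ≠ 0) ∧
      (∃ D : ℕ, 1 ≤ D ∧ RT D 1 τ') ∧
      (∃ w : ℕ, ∀ z : PU q a b → ℂ,
        τ' (fun u => zt q ^ ((u : ℕ) * (a + b)) * z u) = zt q ^ w * τ' z) ∧
      ∀ P : Polynomial ℤ, ∃ (l : (PU q a b → ℂ) →ₗ[ℂ] ℂ) (c : ℂ), ∀ z,
        τ' (z + lamS q (PU q a b) (rhU q a b) P) = Complex.exp (l z + c) * τ' z :=
  have h1 := toU h
  ⟨_, h1.diff, h1.zero, h1.ne, h1.rt, h1.sym, h1.per⟩

end

end Pool.Agent.Helper65.LU
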