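import Pool.Agent.Helper65.LT.Pc

/-!
PROJECT LT2 (MP_274814), block F4-F6 (periods) for arbitrary `a`, `b` with `a + b` prime to `q`.
Here `Phi q a b`, `rho`, `lam` of LT (version 1) are the full index set, scales and lattice points of the curve.
-/

namespace Pool.Agent.Helper65.LU

open Pool.Agent.Helper34.LT Pool.Agent.Helper65.LT Finset Complex Filter Topology

noncomputable section

/-- the characters with `al_u`, `be_u` different from `0` -/
def Uf (q a b : ℕ) : Finset ℕ :=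
  (Icc 1 (q - 1)).filter fun u => (u * a) % q ≠ 0 ∧ (u * b) % q ≠ 0

theorem Uf_sub {q a b u : ℕ} (hu : u ∈ Uf q a b) : u ∈ Icc 1 (q - 1) := (mem_filter.1 hu).1

theorem pos_of_Uf {q a b u : ℕ} (hq : q ≠ 0) (hu : u ∈ Uf q a b) : 0 < al q a u := by
  have h1 := Nat.pos_of_ne_zero (mem_filter.1 hu).2.1
  have h2 : 0 < q := Nat.pos_of_ne_zero hq
  unfold al
  positivity

theorem pos_of_Uf' {q a b u : ℕ} (hq : q ≠ 0) (hu : u ∈ Uf q a b) : 0 < al q b u := by
  have h1 := Nat.pos_of_ne_zero (mem_filter.1 hu).2.2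
  have h2 : 0 < q := Nat.pos_of_ne_zero hq
  unfold al
  positivity

theorem Phi_sub_Uf {q a b u : ℕ} (hu : u ∈ Phi q a b) : u ∈ Uf q a b := by
  unfold Phi at hu
  rw [mem_filter] at hu
  have h0 : 0 < q := by
    have := mem_Icc.1 hu.1
    omega
  have h1 := Nat.mod_lt (u * a) h0
  have h2 := Nat.mod_lt (u * b) h0
  refine mem_filter.2 ⟨hu.1, ?_, ?_⟩
  · omega
  · omega

theorem sum_range_zt {q : ℕ} (hq : q ≠ 0) (k : ℕ) :
    ∑ u ∈ range q, (zt q ^ u) ^ k = if q ∣ k then (q : ℂ) else 0 := by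
  have hp := zt_prim hq
  have e : ∀ u ∈ range q, (zt q ^ u) ^ k = (zt q ^ k) ^ u := fun u _ => by
    rw [← pow_mul, ← pow_mul, mul_comm]
  rw [sum_congr rfl e]
  split_ifs with h
  · rw [(hp.pow_eq_one_iff_dvd k).2 h]; simp
  · have h3 : zt q ^ k ≠ 1 := fun h4 => h ((hp.pow_eq_one_iff_dvd k).1 h4)
    rw [geom_sum_eq h3, ← pow_mul, mul_comm, pow_mul, hp.pow_eq_one]
    simp

/-- the sum over the kernel of `u -> u a` -/
theorem sum_ker_int {q : ℕ} (hq : q ≠ 0) (a k : ℕ) :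
    ∑ u ∈ range q, (if (u * a) % q = 0 then (zt q ^ u) ^ k else 0) =
      ((∑ j ∈ range q, if q ∣ j * a + k then (1 : ℤ) else 0 : ℤ) : ℂ) := by
  have hq' : (q : ℂ) ≠ 0 := by exact_mod_cast hq
  have h1 : ∀ u ∈ range q, (if (u * a) % q = 0 then (zt q ^ u) ^ k else 0) =
      (q : ℂ)⁻¹ * ∑ j ∈ range q, (zt q ^ u) ^ (j * a + k) := by
    intro u _
    have h2 := sum_range_zt hq (u * a)
    have h3 : ∑ j ∈ range q, (zt q ^ u) ^ (j * a + k) =
        (∑ j ∈ range q, (zt q ^ j) ^ (u * a)) * (zt q ^ u) ^ k := by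
      rw [sum_mul]
      refine sum_congr rfl fun j _ => ?_
      have h5 : (zt q ^ u) ^ (j * a) = (zt q ^ j) ^ (u * a) := by
        rw [← pow_mul, ← pow_mul]
        congr 1
        ring
      rw [pow_add, h5]
    rw [h3, h2]
    by_cases h : (u * a) % q = 0
    · rw [if_pos h, if_pos (Nat.dvd_of_mod_eq_zero h)]
      field_simp
    · rw [if_neg h, if_neg fun h4 => h (Nat.mod_eq_zero_of_dvd h4)]
      simp
  rw [sum_congr rfl h1, ← mul_sum, sum_comm]
  have h4 : ∀ j ∈ range q, ∑ u ∈ range q, (zt q ^ u) ^ (j * a + k) =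
      if q ∣ j * a + k then (q : ℂ) else 0 := fun j _ => sum_range_zt hq _
  rw [sum_congr rfl h4, mul_sum]
  push_cast
  refine sum_congr rfl fun j _ => ?_
  split_ifs
  · field_simp
  · simp

theorem sum_Uf_pow {q a b : ℕ} (hq : q ≠ 0) (hab : Nat.Coprime (a + b) q) (k : ℕ) :
    ∃ n : ℤ, ∑ u ∈ Uf q a b, (zt q ^ u) ^ k = (n : ℂ) := by
  refine ⟨(if q ∣ k then (q : ℤ) else 0) - (∑ j ∈ range q, if q ∣ j * a + k then (1 : ℤ) else 0) -
    (∑ j ∈ range q, if q ∣ j * b + k then (1 : ℤ) else 0) + 1, ?_⟩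
  have h1 := sum_range_zt hq k
  have h2 := sum_ker_int hq a k
  have h3 := sum_ker_int hq b k
  have h4 : ∀ u ∈ range q, (if u ∈ Uf q a b then (zt q ^ u) ^ k else 0) =
      (zt q ^ u) ^ k - (if (u * a) % q = 0 then (zt q ^ u) ^ k else 0) -
        (if (u * b) % q = 0 then (zt q ^ u) ^ k else 0) + (if u = 0 then 1 else 0) := by
    intro u hu
    rw [mem_range] at hu
    by_cases h0 : u = 0
    · subst h0
      have : (0 : ℕ) ∉ Uf q a b := fun h => by
        have := (mem_Icc.1 (Uf_sub h)).1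
        omega
      rw [if_neg this]
      simp
    · have hI : u ∈ Icc 1 (q - 1) := by
        rw [mem_Icc]
        omega
      rw [if_neg h0]
      by_cases ha : (u * a) % q = 0
      · have hb : (u * b) % q ≠ 0 := by
          intro hb
          have h5 := mod_pos hab hI
          rw [mul_add, Nat.add_mod, ha, hb] at h5
          simp at h5
        have hn : u ∉ Uf q a b := fun h => (mem_filter.1 h).2.1 ha
        rw [if_pos ha, if_neg hb, if_neg hn]
        ring
      · by_cases hb : (u * b) % q = 0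
        · have hn : u ∉ Uf q a b := fun h => (mem_filter.1 h).2.2 hb
          rw [if_neg ha, if_pos hb, if_neg hn]
          ring
        · have hn : u ∈ Uf q a b := mem_filter.2 ⟨hI, ha, hb⟩
          rw [if_neg ha, if_neg hb, if_pos hn]
          ring
  have h5 : ∑ u ∈ Uf q a b, (zt q ^ u) ^ k = ∑ u ∈ range q, if u ∈ Uf q a b then (zt q ^ u) ^ k else 0 := by
    rw [← sum_filter]
    refine sum_congr ?_ fun _ _ => rfl
    ext u
    rw [mem_filter, mem_range]
    refine ⟨fun h => ⟨?_, h⟩, fun h => h.2⟩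
    have := mem_Icc.1 (Uf_sub h)
    omega
  rw [h5, sum_congr rfl h4, sum_add_distrib, sum_sub_distrib, sum_sub_distrib, h1, h2, h3,
    sum_ite_eq' (range q) 0, if_pos (mem_range.2 (Nat.pos_of_ne_zero hq))]
  push_cast
  ring

theorem sum_Uf_int {q a b : ℕ} (hq : q ≠ 0) (hab : Nat.Coprime (a + b) q) (Q : Polynomial ℤ) :
    ∃ n : ℤ, ∑ u ∈ Uf q a b, Polynomial.aeval (zt q ^ u) Q = (n : ℂ) := by
  choose n hn using sum_Uf_pow (a := a) (b := b) hq hab
  refine ⟨∑ i ∈ range (Q.natDegree + 1), Q.coeff i * n i, ?_⟩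
  push_cast
  simp_rw [← hn, mul_sum]
  rw [sum_comm]
  refine sum_congr rfl fun u _ => ?_
  rw [Polynomial.aeval_eq_sum_range]
  refine sum_congr rfl fun i _ => ?_
  simp [Algebra.smul_def]

/-- the sheets, on `Om` -/
def Th (q a b : ℕ) (P : Polynomial ℤ) (j : ℕ) (x : ℂ) : ℂ :=
  exp (∑ u ∈ Uf q a b, zt q ^ (j * u) *
    (x ^ (al q a u : ℂ) * (cu q a b P u * gg (al q a u) (al q b u) x)))

theorem cu_mul {q a b : ℕ} (hq : q ≠ 0) (P : Polynomial ℤ) {u : ℕ}
    (hu : u ∈ Uf q a b) :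
    cu q a b P u * betaIntegral (al q a u) (al q b u) = 2 * Real.pi * I * Polynomial.aeval (zt q ^ u) P := by
  unfold cu
  rw [div_mul_cancel₀]
  exact beta_ne (pos_of_Uf hq hu) (pos_of_Uf' hq hu)

theorem Th_one {q a b : ℕ} (hq : q ≠ 0) (hab : Nat.Coprime (a + b) q) (P : Polynomial ℤ) (j : ℕ)
    {x : ℂ} (hx : x ∈ Om) :
    Th q a b P j x = exp (∑ u ∈ Uf q a b, zt q ^ (j * u) *
      ((1 - x) ^ (al q b u : ℂ) * (-(cu q a b P u) * gg (al q b u) (al q a u) (1 - x)))) := by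
  obtain ⟨n, hn⟩ := sum_Uf_int (a := a) (b := b) hq hab (Polynomial.X ^ j * P)
  have h1 : ∑ u ∈ Uf q a b, zt q ^ (j * u) *
      (x ^ (al q a u : ℂ) * (cu q a b P u * gg (al q a u) (al q b u) x)) =
      2 * Real.pi * I * (n : ℂ) + ∑ u ∈ Uf q a b, zt q ^ (j * u) *
      ((1 - x) ^ (al q b u : ℂ) * (-(cu q a b P u) * gg (al q b u) (al q a u) (1 - x))) := by
    rw [← hn, mul_sum, ← sum_add_distrib]
    refine sum_congr rfl fun u hu => ?_
    have h2 := gg_add (pos_of_Uf hq hu) (pos_of_Uf' hq hu) hx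
    have h3 := cu_mul hq P hu
    rw [map_mul, map_pow, Polynomial.aeval_X, ← pow_mul, mul_comm u j]
    rw [← h2] at h3
    linear_combination (zt q ^ (j * u)) * h3
  unfold Th
  rw [h1, exp_add, exp_two_pi_int, one_mul]

theorem Th_inf {q a b : ℕ} (hq : q ≠ 0) (hab : Nat.Coprime (a + b) q)
    (P : Polynomial ℤ) {x : ℂ} (hx : 0 < x.im) (h1 : 1 < ‖x‖) :
    Th q a b P 0 x = exp (∑ u ∈ Uf q a b,
      exp (-(Real.pi * I * ((al q b u : ℂ) - 1))) * cu q a b P u * Gh (al q a u) (al q b u) x) := by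
  obtain ⟨K0, hK⟩ := exists_K0 (a := a) (b := b) hq hab
  obtain ⟨n, hn⟩ := sum_Uf_int (a := a) (b := b) hq hab (P * K0)
  have h2 : ∑ u ∈ Uf q a b, zt q ^ (0 * u) *
      (x ^ (al q a u : ℂ) * (cu q a b P u * gg (al q a u) (al q b u) x)) =
      2 * Real.pi * I * (n : ℂ) + ∑ u ∈ Uf q a b,
      exp (-(Real.pi * I * ((al q b u : ℂ) - 1))) * cu q a b P u * Gh (al q a u) (al q b u) x := by
    rw [← hn, mul_sum, ← sum_add_distrib]
    refine sum_congr rfl fun u hu => ?_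
    obtain ⟨A, hA, hA2⟩ := inf_const (α := al q a u) (β := al q b u) (pos_of_Uf hq hu) (pos_of_Uf' hq hu)
      (fun p => by exact_mod_cast al_add_ne hq hab (Uf_sub hu) (p : ℤ))
    have h3 := cu_mul hq P hu
    have h4 := hA2 x hx h1
    have h5 : A = betaIntegral (al q a u) (al q b u) * Polynomial.aeval (zt q ^ u) K0 := by
      refine hK u (Uf_sub hu) A _ ?_
      rw [← exp_al q a u hq, ← exp_al q b u hq, ← Complex.exp_neg]
      exact hA
    rw [map_mul, zero_mul, pow_zero, one_mul]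
    rw [h5] at h4
    linear_combination (cu q a b P u) * h4 + (Polynomial.aeval (zt q ^ u) K0) * h3
  unfold Th
  rw [h2, exp_add, exp_two_pi_int, one_mul]


theorem sum_attach_zt {q a b : ℕ} (f : ℕ → ℂ) :
    ∑ u ∈ Uf q a b, f u = ∑ u : {u // u ∈ Uf q a b}, f (u : ℕ) :=
  (Finset.sum_coe_sort (Uf q a b) f).symm

theorem exists_H {q a b : ℕ} (hq : q ≠ 0) (hab : Nat.Coprime (a + b) q) (P : Polynomial ℤ) :
    ∃ H : ℕ → ℂ → ℂ, (∀ k, Differentiable ℂ (H k)) ∧ ∀ k < q, ∀ x ∈ Om,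
      H k x * (x ^ (al q a k : ℂ) * (1 - x) ^ (al q b k : ℂ)) =
        (q : ℂ)⁻¹ * ∑ j ∈ range q, (zt q ^ (j * k))⁻¹ * Th q a b P j x := by
  have key : ∀ k, ∃ H : ℂ → ℂ, Differentiable ℂ H ∧ (k < q → ∀ x ∈ Om,
      H x * (x ^ (al q a k : ℂ) * (1 - x) ^ (al q b k : ℂ)) =
        (q : ℂ)⁻¹ * ∑ j ∈ range q, (zt q ^ (j * k))⁻¹ * Th q a b P j x) := by
    intro k
    by_cases hk : k < q
    swap
    · exact ⟨fun _ => 0, differentiable_const _, fun h => absurd h hk⟩
    let w : {u // u ∈ Uf q a b} → ℕ := fun u => u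
    let da : {u // u ∈ Uf q a b} → ℕ := fun u => (w u * a) % q
    let db : {u // u ∈ Uf q a b} → ℕ := fun u => (w u * b) % q
    let ya : {u // u ∈ Uf q a b} → ℂ → ℂ := fun u x => cu q a b P u * gg (al q a u) (al q b u) x
    let yb : {u // u ∈ Uf q a b} → ℂ → ℂ := fun u x => -(cu q a b P u) * gg (al q b u) (al q a u) x
    let f0 : ℂ → ℂ := fun x => AA q w da k ((k * a) % q) x (fun u => ya u x)
    let g0 : ℂ → ℂ := fun x => AA q w db k ((k * b) % q) x (fun u => yb u x)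
    have hf0 : DifferentiableOn ℂ f0 D0 :=
      AA_diff hq w da (fun u => (Nat.mod_lt _ (Nat.pos_of_ne_zero hq)).le) k _ isOpen_D0 ya
        (fun u => (gg_diff (pos_of_Uf hq u.2)).const_mul _)
    have hg0 : DifferentiableOn ℂ g0 D0 :=
      AA_diff hq w db (fun u => (Nat.mod_lt _ (Nat.pos_of_ne_zero hq)).le) k _ isOpen_D0 yb
        (fun u => (gg_diff (pos_of_Uf' hq u.2)).const_mul _)
    have hpow : ∀ (c : ℂ) (x : ℂ), x ∈ slitPlane → x ^ c ≠ 0 := fun c x hx => by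
      rw [Complex.cpow_def_of_ne_zero (slitPlane_ne_zero hx)]
      exact exp_ne_zero _
    have hsub : DifferentiableOn ℂ (fun x : ℂ => 1 - x) Set.univ := by fun_prop
    have hf : DifferentiableOn ℂ (fun x => f0 x / (1 - x) ^ (al q b k : ℂ)) D0 := by
      refine hf0.div ?_ (fun x hx => hpow _ _ hx)
      intro x hx
      have : DifferentiableAt ℂ (fun x : ℂ => (1 - x) ^ (al q b k : ℂ)) x := by
        refine DifferentiableAt.cpow_const (by fun_prop) hx
      exact this.differentiableWithinAt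
    have hg : DifferentiableOn ℂ (fun x => g0 (1 - x) / x ^ (al q a k : ℂ)) slitPlane := by
      refine DifferentiableOn.div ?_ ?_ (fun x hx => hpow _ _ hx)
      · refine hg0.comp (hsub.mono (Set.subset_univ _)) ?_
        intro x hx
        show 1 - (1 - x) ∈ slitPlane
        simpa using hx
      · intro x hx
        exact (DifferentiableAt.cpow_const differentiableAt_id hx).differentiableWithinAt
    have e1 : ∀ x ∈ Om, x ^ (al q a k : ℂ) * f0 x =
        (q : ℂ)⁻¹ * ∑ j ∈ range q, (zt q ^ (j * k))⁻¹ * Th q a b P j x := by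
      intro x hx
      rw [← AA_sum hq w hk (slitPlane_ne_zero hx.1)]
      congr 1
      refine sum_congr rfl fun j _ => ?_
      unfold Th
      rw [sum_attach_zt]
    have e2 : ∀ x ∈ Om, (1 - x) ^ (al q b k : ℂ) * g0 (1 - x) =
        (q : ℂ)⁻¹ * ∑ j ∈ range q, (zt q ^ (j * k))⁻¹ * Th q a b P j x := by
      intro x hx
      rw [← AA_sum hq w hk (slitPlane_ne_zero hx.2)]
      congr 1
      refine sum_congr rfl fun j _ => ?_
      rw [Th_one hq hab P j hx, sum_attach_zt]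
    obtain ⟨H, hH, hH2⟩ := glue _ _ hf hg (by
      intro x hx
      have h1 := hpow (al q a k : ℂ) _ hx.1
      have h2 := hpow (al q b k : ℂ) _ hx.2
      rw [div_eq_div_iff h2 h1]
      have := e1 x hx
      have := e2 x hx
      linear_combination (e1 x hx) - (e2 x hx))
    refine ⟨H, hH, fun _ x hx => ?_⟩
    have h2 := hpow (al q b k : ℂ) _ hx.2
    rw [hH2 x hx, ← e1 x hx]
    field_simp
  choose H h1 h2 using key
  exact ⟨H, h1, fun k hk => h2 k hk⟩

theorem Th_eq_sum {q a b : ℕ} (hq : q ≠ 0) (P : Polynomial ℤ) (H : ℕ → ℂ → ℂ)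
    (hH : ∀ k < q, ∀ x ∈ Om, H k x * (x ^ (al q a k : ℂ) * (1 - x) ^ (al q b k : ℂ)) =
        (q : ℂ)⁻¹ * ∑ j ∈ range q, (zt q ^ (j * k))⁻¹ * Th q a b P j x) {x : ℂ} (hx : x ∈ Om) :
    Th q a b P 0 x = ∑ k ∈ range q, H k x * (x ^ (al q a k : ℂ) * (1 - x) ^ (al q b k : ℂ)) := by
  rw [sum_congr rfl fun k hk => hH k (mem_range.1 hk) x hx, ← mul_sum, sum_comm]
  have h1 : ∀ j ∈ range q, ∑ k ∈ range q, (zt q ^ (j * k))⁻¹ * Th q a b P j x =
      if j = 0 then (q : ℂ) * Th q a b P 0 x else 0 := by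
    intro j hj
    rw [← sum_mul]
    split_ifs with h
    · subst h; simp
    · have h2 : ∑ k ∈ range q, (zt q ^ (j * k))⁻¹ = 0 := by
        have hp := zt_prim hq
        have h3 : (zt q ^ j)⁻¹ ≠ 1 := by
          intro h4
          have h5 : zt q ^ j = 1 := by simpa using h4
          exact h (Nat.eq_zero_of_dvd_of_lt (hp.pow_eq_one_iff_dvd j |>.1 h5) (mem_range.1 hj))
        have h6 : ∑ k ∈ range q, (zt q ^ (j * k))⁻¹ = ∑ k ∈ range q, ((zt q ^ j)⁻¹) ^ k := by
          refine sum_congr rfl fun k _ => ?_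
          rw [pow_mul, inv_pow]
        rw [h6, geom_sum_eq h3]
        rw [inv_pow, ← pow_mul, mul_comm, pow_mul, hp.pow_eq_one]
        simp
      rw [h2, zero_mul]
  rw [sum_congr rfl h1, sum_ite_eq' (range q) 0]
  have hq' : (q : ℂ) ≠ 0 := by exact_mod_cast hq
  rw [if_pos (mem_range.2 (Nat.pos_of_ne_zero hq))]
  field_simp

/-- the function `phi` on the punctured unit disc -/
def phs (q a b : ℕ) (P : Polynomial ℤ) (s : ℂ) : ℂ :=
  exp (∑ u ∈ Uf q a b, exp (-(Real.pi * I * ((al q b u : ℂ) - 1))) * cu q a b P u *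
    (s ^ (-(ke q a b u)) * gam (al q a u) (al q b u) (s ^ q)))

/-- the point of the punctured disc -/
private def P13b_s (q : ℕ) (l : ℂ) : ℂ := exp (-(l / q))

private theorem P13b_s_ne (q : ℕ) (l : ℂ) : P13b_s q l ≠ 0 := Complex.exp_ne_zero _

private theorem P13b_s_diff (q : ℕ) : Differentiable ℂ (P13b_s q) := by
  unfold P13b_s
  fun_prop

private theorem P13b_s_zpow {q : ℕ} (hq : q ≠ 0) (l : ℂ) : P13b_s q l ^ (-(q : ℤ)) = exp l := by
  unfold P13b_s
  rw [← Complex.exp_int_mul]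
  congr 1
  have : (q : ℂ) ≠ 0 := by exact_mod_cast hq
  push_cast
  field_simp

private theorem P13b_s_norm {q : ℕ} (hq : q ≠ 0) {l : ℂ} (hl : 0 < l.re) : ‖P13b_s q l‖ < 1 := by
  unfold P13b_s
  rw [Complex.norm_exp, Real.exp_lt_one_iff]
  have h1 : (-(l / q)).re = -(l.re / q) := by
    rw [Complex.neg_re, Complex.div_natCast_re]
  rw [h1]
  have h2 : (0 : ℝ) < q := by exact_mod_cast Nat.pos_of_ne_zero hq
  have := div_pos hl h2
  linarith

private theorem P13b_pow_norm {q : ℕ} (hq : q ≠ 0) {l : ℂ} (hl : 0 < l.re) :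
    ‖P13b_s q l ^ q‖ < 1 := by
  rw [norm_pow]
  exact pow_lt_one₀ (norm_nonneg _) (P13b_s_norm hq hl) hq

private theorem P13b_slit {y : ℂ} (hy : ‖y‖ < 1) : 1 - y ∈ slitPlane := by
  left
  rw [Complex.sub_re, Complex.one_re]
  have := (Complex.re_le_norm y).trans_lt hy
  linarith

private theorem P13b_open : IsOpen {l : ℂ | 0 < l.re} :=
  isOpen_lt continuous_const Complex.continuous_re

private theorem P13b_left_diff {q a b : ℕ} (hq : q ≠ 0)
    (hne : ∀ u ∈ Uf q a b, ∀ p : ℤ, al q a u + al q b u - 1 ≠ p) (P : Polynomial ℤ) :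
    DifferentiableOn ℂ (fun l => phs q a b P (P13b_s q l)) {l : ℂ | 0 < l.re} := by
  unfold phs
  refine DifferentiableOn.cexp ?_
  refine DifferentiableOn.fun_sum fun u hu => ?_
  refine DifferentiableOn.mul (differentiableOn_const _) (DifferentiableOn.mul ?_ ?_)
  · intro l _
    exact ((P13b_s_diff q l).zpow (Or.inl (P13b_s_ne q l))).differentiableWithinAt
  · have h1 : DifferentiableOn ℂ (gam (al q a u) (al q b u)) (Metric.ball 0 1) :=
      gam_diff fun p => hne u hu p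
    have h2 : DifferentiableOn ℂ (fun l => P13b_s q l ^ q) {l : ℂ | 0 < l.re} :=
      ((P13b_s_diff q).pow q).differentiableOn
    refine h1.comp h2 fun l hl => ?_
    rw [mem_ball_zero_iff]
    exact P13b_pow_norm hq hl

private theorem P13b_right_diff {q a b : ℕ} (hq : q ≠ 0) (H : ℕ → ℂ → ℂ)
    (hd : ∀ k, Differentiable ℂ (H k)) :
    DifferentiableOn ℂ (fun l => ∑ k ∈ range q, H k (P13b_s q l ^ (-(q : ℤ))) *
      (exp (-(Real.pi * I * (al q b k : ℂ))) * w0 q a b k (P13b_s q l))) {l : ℂ | 0 < l.re} := by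
  refine DifferentiableOn.fun_sum fun k hk => ?_
  have hz : ∀ n : ℤ, DifferentiableOn ℂ (fun l => P13b_s q l ^ n) {l : ℂ | 0 < l.re} :=
    fun n l _ => ((P13b_s_diff q l).zpow (Or.inl (P13b_s_ne q l))).differentiableWithinAt
  refine DifferentiableOn.mul ?_ (DifferentiableOn.mul (differentiableOn_const _) ?_)
  · exact (hd k).comp_differentiableOn (hz _)
  · unfold w0
    refine (hz _).mul ?_
    have h2 : DifferentiableOn ℂ (fun l => 1 - P13b_s q l ^ q) {l : ℂ | 0 < l.re} :=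
      (differentiableOn_const _).sub ((P13b_s_diff q).pow q).differentiableOn
    refine h2.cpow (differentiableOn_const _) fun l hl => ?_
    exact P13b_slit (P13b_pow_norm hq hl)

private theorem P13b_strip {q a b : ℕ} (hq : q ≠ 0) (P : Polynomial ℤ)
    (hinf : ∀ x : ℂ, 0 < x.im → 1 < ‖x‖ → Th q a b P 0 x = exp (∑ u ∈ Uf q a b,
      exp (-(Real.pi * I * ((al q b u : ℂ) - 1))) * cu q a b P u * Gh (al q a u) (al q b u) x))
    (H : ℕ → ℂ → ℂ)
    (hH : ∀ x ∈ Om, Th q a b P 0 x =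
      ∑ k ∈ range q, H k x * (x ^ (al q a k : ℂ) * (1 - x) ^ (al q b k : ℂ)))
    {l : ℂ} (h0 : 0 < l.re) (h1 : 0 < l.im) (h2 : l.im < Real.pi) :
    phs q a b P (P13b_s q l) = ∑ k ∈ range q, H k (P13b_s q l ^ (-(q : ℤ))) *
      (exp (-(Real.pi * I * (al q b k : ℂ))) * w0 q a b k (P13b_s q l)) := by
  have hx : 0 < (exp l).im := by
    rw [Complex.exp_im]
    exact mul_pos (Real.exp_pos _) (Real.sin_pos_of_pos_of_lt_pi h1 h2)
  have hn : 1 < ‖exp l‖ := by
    rw [Complex.norm_exp]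
    exact Real.one_lt_exp_iff.2 h0
  have hO : exp l ∈ Om := by
    refine ⟨Or.inr hx.ne', Or.inr ?_⟩
    rw [Complex.sub_im, Complex.one_im, zero_sub]
    exact (neg_neg_of_pos hx).ne
  have e1 := hinf _ hx hn
  have e2 := hH (exp l) hO
  rw [e1] at e2
  have e3 : phs q a b P (P13b_s q l) = exp (∑ u ∈ Uf q a b,
      exp (-(Real.pi * I * ((al q b u : ℂ) - 1))) * cu q a b P u *
        Gh (al q a u) (al q b u) (exp l)) := by
    unfold phs
    congr 1
    refine Finset.sum_congr rfl fun u _ => ?_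
    rw [Gh_eq hq h1 h2]
    rfl
  rw [e3, e2]
  refine Finset.sum_congr rfl fun k _ => ?_
  rw [P13b_s_zpow hq, w0_eq hq h1 h2]
  rfl

theorem P13b_main {q a b : ℕ} (hq : q ≠ 0)
    (hne : ∀ u ∈ Uf q a b, ∀ p : ℤ, al q a u + al q b u - 1 ≠ p) (P : Polynomial ℤ)
    (hinf : ∀ x : ℂ, 0 < x.im → 1 < ‖x‖ → Th q a b P 0 x = exp (∑ u ∈ Uf q a b,
      exp (-(Real.pi * I * ((al q b u : ℂ) - 1))) * cu q a b P u * Gh (al q a u) (al q b u) x))
    (H : ℕ → ℂ → ℂ) (hd : ∀ k, Differentiable ℂ (H k))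
    (hH : ∀ x ∈ Om, Th q a b P 0 x =
      ∑ k ∈ range q, H k x * (x ^ (al q a k : ℂ) * (1 - x) ^ (al q b k : ℂ)))
    {s : ℂ} (h0 : s ≠ 0) (h1 : ‖s‖ < 1) :
    phs q a b P s =
      ∑ k ∈ range q, H k (s ^ (-(q : ℤ))) *
        (exp (-(Real.pi * I * (al q b k : ℂ))) * w0 q a b k s) := by
  have hA := (P13b_left_diff (a := a) (b := b) hq hne P).analyticOnNhd P13b_open
  have hB := (P13b_right_diff (a := a) (b := b) hq H hd).analyticOnNhd P13b_open
  have hU : IsPreconnected {l : ℂ | 0 < l.re} := (convex_halfSpace_re_gt 0).isPreconnected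
  have hz : (1 + (Real.pi / 2 : ℝ) * I : ℂ) ∈ {l : ℂ | 0 < l.re} := by
    simp
  have hV : IsOpen {l : ℂ | 0 < l.re ∧ 0 < l.im ∧ l.im < Real.pi} := by
    refine P13b_open.inter (IsOpen.inter ?_ ?_)
    · exact isOpen_lt continuous_const Complex.continuous_im
    · exact isOpen_lt Complex.continuous_im continuous_const
  have hzV : (1 + (Real.pi / 2 : ℝ) * I : ℂ) ∈ {l : ℂ | 0 < l.re ∧ 0 < l.im ∧ l.im < Real.pi} := by
    have := Real.pi_pos
    refine ⟨hz, ?_, ?_⟩
    · simp only [Complex.add_im, Complex.one_im, Complex.mul_im, Complex.ofReal_re,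
        Complex.I_im, Complex.ofReal_im, Complex.I_re]
      linarith
    · simp only [Complex.add_im, Complex.one_im, Complex.mul_im, Complex.ofReal_re,
        Complex.I_im, Complex.ofReal_im, Complex.I_re]
      linarith
  have hev := hA.eqOn_of_preconnected_of_eventuallyEq hB hU hz
    (Filter.eventuallyEq_of_mem (hV.mem_nhds hzV) fun l hl =>
      P13b_strip hq P hinf H hH hl.1 hl.2.1 hl.2.2)
  have hq0 : (q : ℂ) ≠ 0 := by exact_mod_cast hq
  have hs : P13b_s q (-(q * Complex.log s)) = s := by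
    unfold P13b_s
    have : -(-((q : ℂ) * Complex.log s) / q) = Complex.log s := by
      field_simp
    rw [this, Complex.exp_log h0]
  have hl : (-(q * Complex.log s) : ℂ) ∈ {l : ℂ | 0 < l.re} := by
    have h2 : Real.log ‖s‖ < 0 := Real.log_neg (norm_pos_iff.2 h0) h1
    have h3 : (0 : ℝ) < q := by exact_mod_cast Nat.pos_of_ne_zero hq
    have h4 : (-(q * Complex.log s) : ℂ).re = -(q * Real.log ‖s‖) := by
      simp [Complex.log_re]
    rw [Set.mem_ofPred_eq, h4]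
    have := mul_neg_of_pos_of_neg h3 h2
    linarith
  have h5 := hev hl
  simp only [hs] at h5
  exact h5

theorem phs_eq {q a b : ℕ} (hq : q ≠ 0) (hab : Nat.Coprime (a + b) q)
    (P : Polynomial ℤ) (H : ℕ → ℂ → ℂ) (hd : ∀ k, Differentiable ℂ (H k))
    (hH : ∀ x ∈ Om, Th q a b P 0 x =
      ∑ k ∈ range q, H k x * (x ^ (al q a k : ℂ) * (1 - x) ^ (al q b k : ℂ)))
    {s : ℂ} (h0 : s ≠ 0) (h1 : ‖s‖ < 1) :
    phs q a b P s =
      ∑ k ∈ range q, H k (s ^ (-(q : ℤ))) *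
        (exp (-(Real.pi * I * (al q b k : ℂ))) * w0 q a b k s) :=
  P13b_main hq (fun _ hu p => al_add_ne hq hab (Uf_sub hu) p) P
    (fun _ hx hn => Th_inf hq hab P hx hn) H hd hH h0 h1

/-- PIECE P14b, general form -/
theorem P14b_gen {q a b : ℕ} (hq : q ≠ 0)
    (hne : ∀ u ∈ Uf q a b, ∀ p : ℤ, al q a u + al q b u - 1 ≠ p)
    (P : Polynomial ℤ) : ∃ r : ℂ → ℂ, DifferentiableOn ℂ r (Metric.ball 0 1) ∧
      ∀ s : ℂ, s ≠ 0 → ‖s‖ < 1 → phs q a b P s = ex q a b (lam q a b P) s * exp (r s) := by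
  refine ⟨fun s => ∑ u ∈ Uf q a b,
    exp (-(Real.pi * I * ((al q b u : ℂ) - 1))) * cu q a b P u * P14b_R q a b u s, ?_, ?_⟩
  · exact DifferentiableOn.fun_sum fun u hu => (P14b_R_diff hq (hne u hu)).const_mul _
  · intro s h0 h1
    unfold phs ex
    rw [← exp_add]
    congr 1
    have e1 : ∑ u : Phi q a b, lam q a b P u * s ^ (-(kk q a b u : ℤ)) =
        ∑ u ∈ Phi q a b, rho q a b u * Polynomial.aeval (zt q ^ u) P *
          s ^ (-(kk q a b u : ℤ)) :=
      Finset.sum_coe_sort (Phi q a b) (fun u => rho q a b u * Polynomial.aeval (zt q ^ u) P *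
          s ^ (-(kk q a b u : ℤ)))
    have e2 : ∑ u ∈ Phi q a b, rho q a b u * Polynomial.aeval (zt q ^ u) P *
          s ^ (-(kk q a b u : ℤ)) =
        ∑ u ∈ Uf q a b, if u ∈ Phi q a b then
          rho q a b u * Polynomial.aeval (zt q ^ u) P * s ^ (-(kk q a b u : ℤ)) else 0 := by
      rw [← Finset.sum_filter]
      refine Finset.sum_congr ?_ fun _ _ => rfl
      ext u
      rw [mem_filter]
      exact ⟨fun h => ⟨Phi_sub_Uf h, h⟩, fun h => h.2⟩
    rw [e1, e2, ← Finset.sum_add_distrib]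
    refine Finset.sum_congr rfl fun u hu => ?_
    rw [P14b_term hq (Uf_sub hu) (hne u hu) h0]
    by_cases h : u ∈ Phi q a b
    · rw [if_pos h, if_pos h, rho, cu]
      have h2 : exp (-(Real.pi * I * ((al q b u : ℂ) - 1))) =
          exp (-(I * Real.pi * ((al q b u : ℂ) - 1))) := by
        congr 1
        ring
      rw [h2]
      simp only [div_eq_mul_inv, mul_inv]
      ring
    · rw [if_neg h, if_neg h]
      ring

/-- P16, general form -/
theorem exists_per_gen (q a b : ℕ) (hq : q ≠ 0) (hab : Nat.Coprime (a + b) q) (P : Polynomial ℤ) :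
    ∃ f fp Ph, Per q a b (lam q a b P) f fp Ph := by
  obtain ⟨H, hd, hH⟩ := exists_H hq hab P
  have hs : ∀ s : ℂ, s ≠ 0 → ‖s‖ < 1 → _ := fun s h0 h1 =>
    phs_eq hq hab P H hd (fun x hx => Th_eq_sum hq P H hH hx) (s := s) h0 h1
  obtain ⟨r, hr, hsplit⟩ := P14b_gen hq (fun _ hu p => al_add_ne hq hab (Uf_sub hu) p) P
  obtain ⟨fp, hfp, hfps⟩ := taylor one_pos (g := fun s => exp (r s)) hr.cexp
  obtain ⟨f, hf, hfs⟩ := taylor one_pos (g := fun s => exp (-(r s))) hr.neg.cexp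
  have hE := fun j => phs_mul hq hab (phs q a b P) H hd hs (nn q a b j)
    (P16a_nn a b (Nat.pos_of_ne_zero hq) j)
  choose E hEd hEs using hE
  have hp := fun j => exists_Ph hq hab (E j) (hEd j)
  choose p hp1 hp2 using hp
  refine ⟨f, fp, fun i j => p j i, ⟨hf _ (by norm_num) (by norm_num), hfp _ (by norm_num) (by norm_num),
    ?_, hp1, ?_⟩⟩
  · intro s hs2
    have h1 : ‖s‖ < 1 := lt_of_le_of_lt hs2 (by norm_num)
    rw [(hfs s h1).tsum_eq, (hfps s h1).tsum_eq, ← exp_add]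
    simp
  · intro s hs2 j
    have h1 : ‖s‖ < 1 := by rw [hs2]; norm_num
    have h0 : s ≠ 0 := by
      rintro rfl
      norm_num at hs2
    rw [(hfps s h1).tsum_eq, ← hsplit s h0 h1, hEs j s h0 h1, (hp2 j s h0 h1).tsum_eq]

end

end Pool.Agent.Helper65.LU
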