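import Pool.Agent.Helper65.LU.Tb
import Pool.Agent.Helper65.LU.Pe
import Pool.Agent.Helper65.LU.Fu
import Pool.Agent.Helper11.LU.F9

/-!
PROJECT LT2: assembly of block F for arbitrary `a`, `b` with `a + b` prime to `q`.
-/

set_option autoImplicit false

namespace Pool.Agent.Helper65.LU

open Finset Filter Topology
open Pool.Agent.Helper34.LT Pool.Agent.Helper34.LU

/-- target of block F (Helper34/LU/Tg.lean) -/
theorem F_main (q a b : ℕ) (h3 : 3 ≤ q) (ha : ¬ q ∣ a) (hb : ¬ q ∣ b)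
    (hab : Nat.Coprime (a + b) q) : ∃ τ : (Phi q a b → ℂ) → ℂ, IsTauF q a b τ := by
  obtain ⟨U, V, K, hF⟩ := exists_fac q a b h3 ha hb hab
  have hd := tau_diff q a b h3 ha hb hab
  have hn := tau_ne q a b h3 ha hb hab
  refine ⟨tauF q a b, hd, tau_zero q a b h3 ha hb hab, hn,
    tau_rt q a b h3 ha hb hab, tau_sym q a b h3 ha hb hab, ?_⟩
  intro P
  obtain ⟨f, fp, Ph, hP⟩ := exists_per_gen q a b (by omega) hab P
  obtain ⟨t, -, ht⟩ := hn
  exact Pool.Agent.Helper11.LU.tau_per q a b (by omega) ha hb hab U V K hF ⟨t, ht⟩ hd _ f fp Ph hP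

end Pool.Agent.Helper65.LU
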