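import Pool.Agent.Helper34.LU.Df
import Pool.Agent.Helper7.LT.Pow

/-!
PROJECT LT2, block P: powers of the theta function, choice of the power.
-/

set_option autoImplicit false

namespace Pool.Agent.Helper65.LU

open Finset Pool.Agent.Helper34.LT LTG Pool.Agent.Helper34.LU
open Pool.Agent.Helper13.LT Pool.Agent.Helper7.LT

theorem QPS_mul_pow {q : ℕ} {s : Finset ℕ} {ρ : ℕ → ℂ} {κ : s → ℂ} {c : Polynomial ℤ → ℂ}
    {F G : (s → ℂ) → ℂ} (hF : QPS q s ρ κ c F) (hG : QPS q s ρ κ c G) (M : ℕ) :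
    QPS q s ρ (fun u => ((M + 1 : ℕ) : ℂ) * κ u) (fun P => ((M + 1 : ℕ) : ℂ) * c P)
      (fun z => F z * G z ^ M) := by
  intro P z
  have e1 : (∑ u, ((M + 1 : ℕ) : ℂ) * κ u * (starRingEnd ℂ) (pt q s P u) * z u + ((M + 1 : ℕ) : ℂ) * c P) =
      (∑ u, κ u * (starRingEnd ℂ) (pt q s P u) * z u + c P) +
        (M : ℂ) * (∑ u, κ u * (starRingEnd ℂ) (pt q s P u) * z u + c P) := by
    rw [Nat.cast_succ, add_mul, one_mul, mul_add, Finset.mul_sum]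
    have e2 : ∑ u, ((M : ℂ) + 1) * κ u * (starRingEnd ℂ) (pt q s P u) * z u =
        ∑ u, (M : ℂ) * (κ u * (starRingEnd ℂ) (pt q s P u) * z u) +
          ∑ u, κ u * (starRingEnd ℂ) (pt q s P u) * z u := by
      rw [← Finset.sum_add_distrib]
      refine Finset.sum_congr rfl fun u _ => ?_
      ring
    rw [e2]
    ring
  simp only [hF P z, hG P z, mul_pow, ← Complex.exp_nat_mul, e1]
  generalize (∑ u, κ u * (starRingEnd ℂ) (pt q s P u) * z u + c P) = A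
  rw [Complex.exp_add]
  ring

theorem QPS_pow {q : ℕ} {s : Finset ℕ} {ρ : ℕ → ℂ} {κ : s → ℂ} {c : Polynomial ℤ → ℂ}
    {F : (s → ℂ) → ℂ} (hF : QPS q s ρ κ c F) (M : ℕ) :
    QPS q s ρ (fun u => ((M + 1 : ℕ) : ℂ) * κ u) (fun P => ((M + 1 : ℕ) : ℂ) * c P)
      (fun z => F z ^ (M + 1)) := by
  have h := QPS_mul_pow hF hF M
  have e : (fun z => F z ^ (M + 1)) = fun z => F z * F z ^ M := funext fun z => pow_succ' _ _
  rw [e]
  exact h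

private theorem imm_pow {s : Finset ℕ} {F G : (s → ℂ) → ℂ} (hF : Differentiable ℂ F)
    (hG : Differentiable ℂ G) (v : s → ℂ) (h0 : G 0 ≠ 0)
    (h : fderiv ℂ F 0 v * G 0 ≠ F 0 * fderiv ℂ G 0 v) (M : ℕ) :
    fderiv ℂ (fun z => F z * G z ^ M) 0 v * (G 0 ^ (M + 1)) ≠
      (F 0 * G 0 ^ M) * fderiv ℂ (fun z => G z ^ (M + 1)) 0 v := by
  have h1 := (hF 0).hasFDerivAt
  have h2 := (hG 0).hasFDerivAt
  have h3 := h1.mul (h2.pow M)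
  have h4 := h2.pow (M + 1)
  have e3 : fderiv ℂ (fun z => F z * G z ^ M) 0 v =
      F 0 * ((M : ℂ) * G 0 ^ (M - 1) * fderiv ℂ G 0 v) + G 0 ^ M * fderiv ℂ F 0 v := by
    have : HasFDerivAt (fun z => F z * G z ^ M) _ 0 := h3
    rw [this.fderiv]
    simp
  have e4 : fderiv ℂ (fun z => G z ^ (M + 1)) 0 v = ((M : ℂ) + 1) * G 0 ^ M * fderiv ℂ G 0 v := by
    have : HasFDerivAt (fun z => G z ^ (M + 1)) _ 0 := h4
    rw [this.fderiv]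
    simp
  rw [e3, e4]
  intro hc
  have h5 : (M : ℂ) * G 0 ^ (M - 1) * G 0 ^ (M + 1) = (M : ℂ) * G 0 ^ M * G 0 ^ M := by
    rcases Nat.eq_zero_or_pos M with h6 | h6
    · subst h6; simp
    · obtain ⟨k, rfl⟩ := Nat.exists_eq_add_of_le' h6
      simp only [Nat.add_sub_cancel]
      ring
  have h7 : G 0 ^ M * G 0 ^ M * (fderiv ℂ F 0 v * G 0 - F 0 * fderiv ℂ G 0 v) = 0 := by
    linear_combination hc - (F 0 * fderiv ℂ G 0 v) * h5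
  rcases mul_eq_zero.1 h7 with h8 | h8
  · exact mul_ne_zero (pow_ne_zero _ h0) (pow_ne_zero _ h0) h8
  · exact h (sub_eq_zero.1 h8)

theorem th_pow (q : ℕ) (s : Finset ℕ) (ρ : ℕ → ℂ) (κ : s → ℂ) (c : Polynomial ℤ → ℂ)
    (f : (s → ℂ) → ℂ) (h : IsTh q s ρ κ c f) (N : ℕ) (hN : 1 ≤ N) :
    IsTh q s ρ (fun u => N * κ u) (fun P => N * c P) (fun z => f z ^ N) := by
  obtain ⟨M, rfl⟩ := Nat.exists_eq_add_of_le' hN
  refine ⟨h.half, h.rho, fun u => ?_, h.diff.pow _, QPS_pow h.qp M, ?_, ?_, ?_, fun p => ?_,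
    fun v hv => ?_, fun u => ?_⟩
  · exact mul_ne_zero (Nat.cast_ne_zero.2 (by omega)) (h.kap u)
  · obtain ⟨D, hD, h0⟩ := h.rt
    refine ⟨D ^ (M + 1), Nat.one_le_pow _ _ hD, RT_pow_one hD hN ?_⟩
    simpa using RT.pow hD h0 (M + 1)
  · obtain ⟨C, hC⟩ := h.growth
    refine ⟨(M + 1 : ℕ) * C, fun z => ?_⟩
    rw [norm_pow]
    refine (pow_le_pow_left₀ (norm_nonneg _) (hC z) _).trans (le_of_eq ?_)
    rw [← Real.exp_nat_mul]
    congr 1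
    ring
  · obtain ⟨z, hz⟩ := h.ne
    exact ⟨z, pow_ne_zero _ hz⟩
  · obtain ⟨F, hF, hQF, hp⟩ := h.bpf p
    exact ⟨fun z => F z ^ (M + 1), hF.pow _, QPS_pow hQF M, pow_ne_zero _ hp⟩
  · obtain ⟨F, G, hF, hG, hQF, hQG, hne⟩ := h.imm v hv
    by_cases h0 : G 0 = 0
    · have h1 : F 0 ≠ 0 := by
        intro h1
        apply hne
        rw [h0, h1, mul_zero, zero_mul]
      have h2 : fderiv ℂ G 0 v * F 0 ≠ G 0 * fderiv ℂ F 0 v := by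
        intro h3
        apply hne
        linear_combination -h3
      exact ⟨fun z => G z * F z ^ M, fun z => F z ^ (M + 1), hG.mul (hF.pow _), hF.pow _,
        QPS_mul_pow hQG hQF M, QPS_pow hQF M, imm_pow hG hF v h1 h2 M⟩
    · exact ⟨fun z => F z * G z ^ M, fun z => G z ^ (M + 1), hF.mul (hG.pow _), hG.pow _,
        QPS_mul_pow hQF hQG M, QPS_pow hQG M, imm_pow hF hG v h0 hne M⟩
  · have h1 := h.alg u
    have h2 : IsAlgebraic ℚ (((M + 1 : ℕ) : ℂ)) := isAlgebraic_natCast _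
    have h3 := h2.mul h1
    have e : ((M + 1 : ℕ) : ℂ) * κ u * ρ u / (2 * Real.pi * Complex.I) =
        ((M + 1 : ℕ) : ℂ) * (κ u * ρ u / (2 * Real.pi * Complex.I)) := by
      rw [mul_assoc, mul_div_assoc]
    rw [e]
    exact h3

theorem exists_pow (q : ℕ) (s t : Finset ℕ) (ρ1 ρ2 : ℕ → ℂ) (κ1 : s → ℂ) (κ2 : t → ℂ)
    (h2 : ∀ v, κ2 v ≠ 0) (h3 : ∀ v ∈ t, ρ2 v ≠ 0) : ∃ N : ℕ, 1 ≤ N ∧
      (∀ u (hu : u ∈ s) (hv : u ∈ t), κ1 ⟨u, hu⟩ * ρ1 u + (N * κ2 ⟨u, hv⟩) * ρ2 u ≠ 0) ∧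
      (∀ u (hu : u ∈ s) (hv : q - u ∈ t),
        κ1 ⟨u, hu⟩ * ρ1 u - (N * κ2 ⟨q - u, hv⟩) * ρ2 (q - u) ≠ 0) := by
  have aux : ∀ x y z : ℂ, y ≠ 0 → z ≠ 0 → {N : ℕ | x + (N * y) * z = 0}.Subsingleton := by
    intro x y z hy hz N hN M hM
    change _ + _ = (0 : ℂ) at hN hM
    have h3 : ((N : ℂ) - M) * (y * z) = 0 := by linear_combination hN - hM
    rcases mul_eq_zero.1 h3 with h4 | h4
    · exact_mod_cast sub_eq_zero.1 h4
    · exact absurd h4 (mul_ne_zero hy hz)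
  have f1 : (⋃ u ∈ s, {N : ℕ | ∃ (hu : u ∈ s) (hv : u ∈ t),
      κ1 ⟨u, hu⟩ * ρ1 u + (N * κ2 ⟨u, hv⟩) * ρ2 u = 0}).Finite := by
    refine Set.Finite.biUnion (Finset.finite_toSet _) fun u _ => Set.Subsingleton.finite ?_
    rintro N ⟨hu, hv, hN⟩ M ⟨hu', hv', hM⟩
    exact aux _ _ _ (h2 _) (h3 _ hv) hN hM
  have f2 : (⋃ u ∈ s, {N : ℕ | ∃ (hu : u ∈ s) (hv : q - u ∈ t),
      κ1 ⟨u, hu⟩ * ρ1 u - (N * κ2 ⟨q - u, hv⟩) * ρ2 (q - u) = 0}).Finite := by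
    refine Set.Finite.biUnion (Finset.finite_toSet _) fun u _ => Set.Subsingleton.finite ?_
    rintro N ⟨hu, hv, hN⟩ M ⟨hu', hv', hM⟩
    refine aux (- (κ1 ⟨u, hu⟩ * ρ1 u)) _ _ (h2 ⟨q - u, hv⟩)
      (h3 (q - u) hv) ?_ ?_
    · change _ + _ = (0 : ℂ)
      linear_combination -hN
    · change _ + _ = (0 : ℂ)
      linear_combination -hM
  obtain ⟨N, hN1, hN⟩ := ((Set.Ici_infinite 1).sdiff (f1.union f2)).nonempty
  refine ⟨N, hN1, fun u hu hv h3 => hN (Or.inl ?_), fun u hu hv h3 => hN (Or.inr ?_)⟩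
  · exact Set.mem_biUnion hu ⟨hu, hv, h3⟩
  · exact Set.mem_biUnion hu ⟨hu, hv, h3⟩

end Pool.Agent.Helper65.LU
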