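import Pool.Agent.Helper65.LU.Fd

/-!
PROJECT LT2, block F: targets for arbitrary `a`, `b`. DO NOT IMPORT; restate word for word.

CHANGES against LT version 1:
* `(q - 1) / 2` -> `gF q a b` (definitions `Mt`, `tauF`, `Fac` of Helper65/LU/Fd.lean; everything else is imported from LT).
* all gaps are `kk u <= q - 2`, their number is `gF` (also for general `a`, `b`, by `not_sg_iff`), so
  `nn j <= gF + j` always and `nn j = gF + j` as soon as `q - 1 <= gF + j`, in particular for `q <= j`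
  (NOT for `gF <= j`: the semigroup need not be symmetric). So the threshold `(q - 1) / 2` in `Tq`, `PW`,
  `hN : (q - 1) / 2 <= N` etc. becomes `q`.
* `Cm_det`: directly for every `N`: `h_j = gF + N - 1 - nn j` (distinct, `>= 0` because `nn j <= gF + j`), entry
  `(i, j)` = `1 / (h_j - (N - 1 - i))!`, so `det_inv_fact` with `g := N`; no `2 g - 1` needed.
* `cc_int` for arbitrary `q >= 1`: `q^(2p) cc (k/q) p` is an integer.
* `1` is a gap (`exists_kk_one`): `u (a + b) = 1 mod q`, `u` is a unit; `1` is not in the semigroup, otherwise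
  `Nk u = 1`, so `u a` or `u b` is `0` mod `q`, so `q` divides `a` or `b`.
-/

namespace Pool.Agent.Helper65.LU

open Finset Filter Pool.Agent.Helper34.LT

theorem exists_fac (q a b : ℕ) (hq : q ≠ 0) (ha : ¬ q ∣ a) (hb : ¬ q ∣ b) (hab : Nat.Coprime (a + b) q) :
    ∃ U V K, Fac q a b U V K := by
  sorry

theorem tau_diff (q a b : ℕ) (hq : q ≠ 0) (ha : ¬ q ∣ a) (hb : ¬ q ∣ b) (hab : Nat.Coprime (a + b) q) :
    Differentiable ℂ (tauF q a b) := by
  sorry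

theorem tau_zero (q a b : ℕ) (hq : q ≠ 0) (ha : ¬ q ∣ a) (hb : ¬ q ∣ b) (hab : Nat.Coprime (a + b) q) :
    tauF q a b 0 = 0 := by
  sorry

theorem tau_ne (q a b : ℕ) (hq : q ≠ 0) (ha : ¬ q ∣ a) (hb : ¬ q ∣ b) (hab : Nat.Coprime (a + b) q) :
    ∃ t : Phi q a b → ℂ, (∀ u : Phi q a b, ¬ Nat.Coprime u q → t u = 0) ∧ tauF q a b t ≠ 0 := by
  sorry

theorem tau_rt (q a b : ℕ) (hq : q ≠ 0) (ha : ¬ q ∣ a) (hb : ¬ q ∣ b) (hab : Nat.Coprime (a + b) q) :
    ∃ D : ℕ, 1 ≤ D ∧ RT D 1 (tauF q a b) := by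
  sorry

theorem tau_sym (q a b : ℕ) (hq : q ≠ 0) (ha : ¬ q ∣ a) (hb : ¬ q ∣ b) (hab : Nat.Coprime (a + b) q) :
    ∃ w : ℕ, ∀ z : Phi q a b → ℂ,
      tauF q a b (fun u => zt q ^ ((u : ℕ) * (a + b)) * z u) = zt q ^ w * tauF q a b z := by
  sorry

/-- PROVED: Helper65/LU/Pe.lean (`exists_per_gen`) -/
theorem exists_per (q a b : ℕ) (hq : q ≠ 0) (hab : Nat.Coprime (a + b) q) (P : Polynomial ℤ) :
    ∃ f fp Ph, Per q a b (lam q a b P) f fp Ph := by
  sorry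

theorem tau_per (q a b : ℕ) (hq : q ≠ 0) (ha : ¬ q ∣ a) (hb : ¬ q ∣ b) (hab : Nat.Coprime (a + b) q)
    (U V : Mat) (K : (Phi q a b → ℂ) → Mat) (h : Fac q a b U V K)
    (hne : ∃ t, tauF q a b t ≠ 0) (hdiff : Differentiable ℂ (tauF q a b))
    (v : Phi q a b → ℂ) (f fp : ℕ → ℂ) (Ph : Mat)
    (hP : Per q a b v f fp Ph) :
    ∃ (l : (Phi q a b → ℂ) →ₗ[ℂ] ℂ) (c : ℂ), ∀ z,
      tauF q a b (z + v) = Complex.exp (l z + c) * tauF q a b z := by
  sorry

end Pool.Agent.Helper65.LU
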