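import Pool.Agent.Helper98.DJ.Df

/-!
# From the transcendence degree of `F_q` to the independence of its generators
-/

set_option autoImplicit false

namespace Pool.Agent.Helper65.LU.Px

open Set Pool.Agent.Helper24.LU Pool.Agent.Helper24.LRDefs

/-- `π` and the `Γ (a / q)`, `1 ≤ a < q / 2` prime to `q` -/
noncomputable def y (q : ℕ) : Option (Pidx q) → ℝ :=
  fun o => o.elim Real.pi fun a : Pidx q => Real.Gamma ((a : ℕ) / q)

theorem gen_alg (q : ℕ) (hq : 2 < q) (a : ℕ) (h1 : 1 ≤ a) (h2 : a < q) (hc : a.Coprime q) :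
    IsAlgebraic (IntermediateField.adjoin ℚ (range fun o => ((y q o : ℝ) : ℂ)))
      (Complex.Gamma ((a : ℂ) / q)) := by
  set K := IntermediateField.adjoin ℚ (range fun o => ((y q o : ℝ) : ℂ)) with hK
  have hpi : ((Real.pi : ℝ) : ℂ) ∈ K :=
    IntermediateField.subset_adjoin ℚ _ ⟨none, rfl⟩
  have hqr : (0 : ℝ) < q := by exact_mod_cast (by omega : 0 < q)
  have hlow : ∀ b : ℕ, 2 * b < q → b.Coprime q → ((Real.Gamma ((b : ℝ) / q) : ℝ) : ℂ) ∈ K := by
    intro b hb hbc
    refine IntermediateField.subset_adjoin ℚ _ ⟨some ⟨b, ?_⟩, rfl⟩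
    rw [Finset.mem_filter, Finset.mem_range]
    exact ⟨by omega, hb, hbc⟩
  have hG : Complex.Gamma ((a : ℂ) / q) = ((Real.Gamma ((a : ℝ) / q) : ℝ) : ℂ) := by
    rw [← Complex.Gamma_ofReal]
    push_cast
    rfl
  rw [hG]
  rcases Nat.lt_or_ge (2 * a) q with h3 | h3
  · exact Pool.Agent.Helper24.GammaTr.isAlg_of_mem _ (hlow a h3 hc)
  · have h4 : 2 * a ≠ q := by
      intro h4
      rw [← h4] at hc
      have h6 : a ∣ 1 := by
        have := Nat.dvd_gcd (dvd_refl a) (Dvd.intro_left 2 rfl : a ∣ 2 * a)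
        rwa [hc] at this
      have : a = 1 := Nat.dvd_one.1 h6
      omega
    have h5 := hlow (q - a) (by omega) ((Nat.coprime_self_sub_left (by omega)).2 hc)
    have h6 : (((q - a : ℕ) : ℝ) / q) = 1 - (a : ℝ) / q := by
      rw [Nat.cast_sub h2.le, sub_div, div_self hqr.ne']
    rw [h6] at h5
    have hcr : (0 : ℝ) < a := by exact_mod_cast h1
    have hcq : (a : ℝ) < q := by exact_mod_cast h2
    have hlt : (a : ℝ) / q < 1 := by rw [div_lt_one hqr]; exact hcq
    have hsin : IsAlgebraic ℚ (Real.sin (Real.pi * ((a : ℝ) / q))) := by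
      have h3 := Real.isAlgebraic_sin_rat_mul_pi ((a : ℚ) / q)
      have h4 : ((((a : ℚ) / q : ℚ) : ℝ) * Real.pi) = Real.pi * ((a : ℝ) / q) := by
        push_cast; ring
      rw [h4] at h3
      exact h3.extendScalars (FaithfulSMul.algebraMap_injective ℤ ℚ)
    have hrefl := Real.Gamma_mul_Gamma_one_sub ((a : ℝ) / q)
    have hG2 : Real.Gamma (1 - (a : ℝ) / q) ≠ 0 := (Real.Gamma_pos_of_pos (by linarith)).ne'
    have hkey : Real.Gamma ((a : ℝ) / q) =
        Real.pi * (Real.sin (Real.pi * ((a : ℝ) / q)))⁻¹ * (Real.Gamma (1 - (a : ℝ) / q))⁻¹ := by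
      rw [eq_mul_inv_iff_mul_eq₀ hG2, hrefl, div_eq_mul_inv]
    rw [hkey]
    push_cast
    have e1 : IsAlgebraic K (((Real.sin (Real.pi * ((a : ℝ) / q)) : ℝ) : ℂ)) :=
      Pool.Agent.Helper24.GammaTr.isAlg_of_alg K hsin
    have e2 : IsAlgebraic K ((Real.pi : ℝ) : ℂ) := Pool.Agent.Helper24.GammaTr.isAlg_of_mem _ hpi
    have e3 : IsAlgebraic K ((Real.Gamma (1 - (a : ℝ) / q) : ℝ) : ℂ) :=
      Pool.Agent.Helper24.GammaTr.isAlg_of_mem _ h5
    have e4 := (e2.mul e1.inv).mul e3.inv
    push_cast at e4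
    exact e4

theorem F_alg (q : ℕ) (hq : 2 < q) (z : ℂ) (hz : z ∈ F q) :
    IsAlgebraic (Algebra.adjoin ℚ (range fun o => ((y q o : ℝ) : ℂ))) z := by
  apply alg_adjoin
  set K := IntermediateField.adjoin ℚ (range fun o => ((y q o : ℝ) : ℂ)) with hK
  have hle : F q ≤ (algebraicClosure K ℂ).restrictScalars ℚ := by
    unfold F
    rw [IntermediateField.adjoin_le_iff]
    rintro z (hz | ⟨a, h1, h2, h3, rfl⟩)
    · rw [mem_singleton_iff] at hz
      subst hz
      change _ ∈ IntermediateField.restrictScalars ℚ _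
      rw [IntermediateField.mem_restrictScalars, mem_algebraicClosure_iff]
      exact Pool.Agent.Helper24.GammaTr.isAlg_of_mem _
        (IntermediateField.subset_adjoin ℚ _ ⟨none, rfl⟩)
    · change _ ∈ IntermediateField.restrictScalars ℚ _
      rw [IntermediateField.mem_restrictScalars, mem_algebraicClosure_iff]
      exact gen_alg q hq a h1 (by omega) h3
  have := hle hz
  rwa [IntermediateField.mem_restrictScalars, mem_algebraicClosure_iff] at this

open Pool.Agent.Helper98.DJ in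
/-- The inequality of Q1 gives the algebraic independence of the `1 + φ(q) / 2` generators. -/
theorem indep_of_LR (q : ℕ) (hq : 2 < q) (h : LR q) : AlgebraicIndependent ℚ (y q) := by
  rw [← real_iff]
  have hcard : Fintype.card (Option (Pidx q)) = 1 + Nat.totient q / 2 := by
    rw [Fintype.card_option, card_Pidx q hq, add_comm]
  obtain ⟨I, b, hb⟩ := exists_isTranscendenceBasis' ℚ (F q)
  have h1 := hb.cardinalMk_eq_trdeg
  unfold LR at h
  rw [← h1, ← hcard, ← Cardinal.mk_fin] at h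
  obtain ⟨e⟩ := Cardinal.le_def _ _ |>.1 h
  refine indep_of_card (fun o => ((y q o : ℝ) : ℂ)) (fun z : F q => (z : ℂ))
    (fun z => F_alg q hq z z.2) (fun k => b (e k)) ?_
  have h2 : AlgebraicIndependent ℚ (fun k => b (e k)) := hb.1.comp e e.injective
  exact (AlgHom.algebraicIndependent_iff (F q).val (F q).val.injective).2 h2

/-! ### the explicit forms -/

open Pool.Agent.Helper98.DJ

theorem five (h : LR 5) :
    AlgebraicIndependent ℚ ![Real.pi, Real.Gamma (1 / 5), Real.Gamma (2 / 5)] := by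
  have h1 := (indep_of_LR 5 (by norm_num) h).comp
    (![none, some ⟨1, by decide⟩, some ⟨2, by decide⟩] : Fin 3 → Option (Pidx 5)) (by decide)
  convert h1 using 1
  funext i
  fin_cases i <;> simp [y]

theorem seven (h : LR 7) :
    AlgebraicIndependent ℚ ![Real.pi, Real.Gamma (1 / 7), Real.Gamma (2 / 7),
      Real.Gamma (3 / 7)] := by
  have h1 := (indep_of_LR 7 (by norm_num) h).comp
    (![none, some ⟨1, by decide⟩, some ⟨2, by decide⟩, some ⟨3, by decide⟩] :
      Fin 4 → Option (Pidx 7)) (by decide)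
  convert h1 using 1
  funext i
  fin_cases i <;> simp [y]

theorem eight (h : LR 8) :
    AlgebraicIndependent ℚ ![Real.pi, Real.Gamma (1 / 8), Real.Gamma (3 / 8)] := by
  have h1 := (indep_of_LR 8 (by norm_num) h).comp
    (![none, some ⟨1, by decide⟩, some ⟨3, by decide⟩] : Fin 3 → Option (Pidx 8)) (by decide)
  convert h1 using 1
  funext i
  fin_cases i <;> simp [y]

theorem nine (h : LR 9) :
    AlgebraicIndependent ℚ ![Real.pi, Real.Gamma (1 / 9), Real.Gamma (2 / 9),
      Real.Gamma (4 / 9)] := by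
  have h1 := (indep_of_LR 9 (by norm_num) h).comp
    (![none, some ⟨1, by decide⟩, some ⟨2, by decide⟩, some ⟨4, by decide⟩] :
      Fin 4 → Option (Pidx 9)) (by decide)
  convert h1 using 1
  funext i
  fin_cases i <;> simp [y]

end Pool.Agent.Helper65.LU.Px
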