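import Pool.Agent.Helper65.LU.Fd
import Pool.Agent.Helper13.LT.Tc
import Pool.Agent.Helper13.LT.Fac
import Pool.Agent.Helper13.LT.Rtl

/-!
PROJECT LT2, block F1-F3 for arbitrary `a`, `b`. Port of Helper13/LT (semigroup, matrices `U`, `V`, structure theorem).
-/

set_option autoImplicit false

namespace Pool.Agent.Helper65.LU

open Finset Filter Topology
open Pool.Agent.Helper34.LT Pool.Agent.Helper11.LT Pool.Agent.Helper13.LT

private theorem Sga_mem {q a b : ℕ} (u : Phi q a b) : 1 ≤ (u : ℕ) ∧ (u : ℕ) ≤ q - 1 ∧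
    q < ((u : ℕ) * a) % q + ((u : ℕ) * b) % q := by
  have h := u.2
  unfold Phi at h
  rw [mem_filter, mem_Icc] at h
  exact ⟨h.1.1, h.1.2, h.2⟩

/-- the values at `u ∈ Phi` are at least `1` and at most `q - 2`.
PROOF. `q < (u a) % q + (u b) % q ≤ 2 q - 2`. -/
theorem kk_pos {q a b : ℕ} (u : Phi q a b) : 1 ≤ kk q a b u := by
  have h := (Sga_mem u).2.2
  unfold kk
  omega

theorem kk_le {q a b : ℕ} (u : Phi q a b) : kk q a b u ≤ q - 2 := by
  obtain ⟨h1, h2, h3⟩ := Sga_mem u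
  have hq : 0 < q := by omega
  have h4 := Nat.mod_lt ((u : ℕ) * a) hq
  have h5 := Nat.mod_lt ((u : ℕ) * b) hq
  unfold kk
  omega

theorem cls_lt {q : ℕ} (hq : 1 < q) (a b n : ℕ) : cls q a b n < q := by
  have : NeZero q := ⟨by omega⟩
  exact ZMod.val_lt _

theorem cls_spec {q a b : ℕ} (hq : 1 < q) (hab : Nat.Coprime (a + b) q) (n : ℕ) :
    cls q a b n * (a + b) ≡ n [MOD q] := by
  have : NeZero q := ⟨by omega⟩
  have h0 := ZMod.coe_mul_inv_eq_one (a + b) hab
  rw [← ZMod.natCast_eq_natCast_iff, Nat.cast_mul]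
  unfold cls
  rw [ZMod.natCast_zmod_val, mul_assoc, mul_comm _ ((a + b : ℕ) : ZMod q), h0, mul_one]

theorem cls_eq {q a b : ℕ} (hq : 1 < q) (hab : Nat.Coprime (a + b) q) {k n : ℕ} (hk : k < q)
    (h : k * (a + b) ≡ n [MOD q]) : cls q a b n = k := by
  have : NeZero q := ⟨by omega⟩
  have h0 := ZMod.coe_mul_inv_eq_one (a + b) hab
  rw [← ZMod.natCast_eq_natCast_iff, Nat.cast_mul] at h
  unfold cls
  rw [← h, mul_assoc, h0, mul_one, ZMod.val_natCast, Nat.mod_eq_of_lt hk]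

theorem cls_congr {q a b m n : ℕ} (h : m ≡ n [MOD q]) : cls q a b m = cls q a b n := by
  unfold cls
  rw [(ZMod.natCast_eq_natCast_iff _ _ _).2 h]

theorem bt_congr {q a b m n : ℕ} (h : m ≡ n [MOD q]) : bt q a b m = bt q a b n := by
  rw [bt, bt, cls_congr h]

theorem bt_nonneg (q a b n : ℕ) : 0 ≤ bt q a b n := by
  unfold bt al
  positivity

theorem bt_lt_one {q : ℕ} (hq : 1 < q) (a b n : ℕ) : bt q a b n < 1 := by
  unfold bt al
  have hq0 : 0 < q := by omega
  have h0 : (0 : ℝ) < q := by exact_mod_cast hq0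
  rw [div_lt_one h0]
  exact_mod_cast Nat.mod_lt _ hq0

theorem bt_eq (q a b n : ℕ) : ∃ k : ℕ, bt q a b n = (k : ℝ) / (q : ℝ) := ⟨_, rfl⟩

theorem Nk_modEq (q a b k : ℕ) : Nk q a b k ≡ k * (a + b) [MOD q] := by
  unfold Nk
  rw [mul_add]
  exact (Nat.mod_modEq _ _).add (Nat.mod_modEq _ _)

theorem Nk_le {q : ℕ} (hq : 1 < q) (a b k : ℕ) : Nk q a b k ≤ 2 * q - 2 := by
  have hq0 : 0 < q := by omega
  have h4 := Nat.mod_lt (k * a) hq0
  have h5 := Nat.mod_lt (k * b) hq0
  unfold Nk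
  omega

private theorem Sga_kk {q a b : ℕ} (u : Phi q a b) : kk q a b u + q = Nk q a b u := by
  have h := (Sga_mem u).2.2
  unfold kk Nk
  omega

theorem kk_modEq {q a b : ℕ} (u : Phi q a b) : kk q a b u ≡ (u : ℕ) * (a + b) [MOD q] := by
  have h1 : kk q a b u ≡ kk q a b u + q [MOD q] := by
    unfold Nat.ModEq
    rw [Nat.add_mod_right]
  rw [Sga_kk] at h1
  exact h1.trans (Nk_modEq q a b u)

private theorem Sga_cls {q a b : ℕ} (hq : 1 < q) (hab : Nat.Coprime (a + b) q) (u : Phi q a b) :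
    cls q a b (kk q a b u) = u := by
  obtain ⟨h1, h2, -⟩ := Sga_mem u
  exact cls_eq hq hab (by omega) (kk_modEq u).symm

private theorem Sga_cls_zero (q a b : ℕ) : cls q a b 0 = 0 := by
  unfold cls
  rw [Nat.cast_zero, zero_mul, ZMod.val_zero]

private theorem Sga_Nk_zero (q a b : ℕ) : Nk q a b 0 = 0 := by
  unfold Nk
  simp

/-- the gaps are the numbers `kk u`.
PROOF. Let `k = cls n`. If `n < Nk k` then `Nk k - n` is a positive multiple of `q` (`Nk_modEq`,
`cls_spec`) smaller than `2 q`, so `Nk k = n + q`. `n = 0` is impossible (`cls 0 = 0`, `Nk 0 = 0`), so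
`Nk k > q`, `k ∈ Phi` and `kk k = n`. Conversely if `kk u = n` then `cls n = u` (`cls_eq`, `kk_modEq`)
and `Nk u = n + q > n`. -/
theorem not_sg_iff {q a b : ℕ} (hq : 1 < q) (hab : Nat.Coprime (a + b) q) (n : ℕ) :
    ¬ sg q a b n ↔ ∃ u : Phi q a b, kk q a b u = n := by
  constructor
  · intro h
    unfold sg at h
    rw [not_le] at h
    have hle := Nk_le hq a b (cls q a b n)
    have h1 : Nk q a b (cls q a b n) ≡ n [MOD q] :=
      (Nk_modEq q a b (cls q a b n)).trans (cls_spec hq hab n)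
    have h2 : q ∣ Nk q a b (cls q a b n) - n := (Nat.modEq_iff_dvd' h.le).1 h1.symm
    obtain ⟨c, hc⟩ := h2
    have h3 : c = 1 := by
      have h4 : c ≠ 0 := by
        rintro rfl
        omega
      have h5 : c < 2 := by
        by_contra h6
        have h7 : q * 2 ≤ q * c := Nat.mul_le_mul_left q (by omega)
        omega
      omega
    rw [h3, mul_one] at hc
    have hn : n ≠ 0 := by
      rintro rfl
      rw [Sga_cls_zero, Sga_Nk_zero] at hc
      omega
    have hk0 : cls q a b n ≠ 0 := by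
      intro h0
      rw [h0, Sga_Nk_zero] at hc
      omega
    have hkq := cls_lt hq a b n
    have hmem : cls q a b n ∈ Phi q a b := by
      unfold Phi
      rw [mem_filter, mem_Icc]
      refine ⟨⟨by omega, by omega⟩, ?_⟩
      have h8 : Nk q a b (cls q a b n) = n + q := by omega
      unfold Nk at h8
      omega
    refine ⟨⟨_, hmem⟩, ?_⟩
    have h9 := Sga_kk (⟨_, hmem⟩ : Phi q a b)
    change kk q a b (cls q a b n) + q = Nk q a b (cls q a b n) at h9
    change kk q a b (cls q a b n) = n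
    omega
  · rintro ⟨u, rfl⟩ h
    unfold sg at h
    rw [Sga_cls hq hab, ← Sga_kk] at h
    omega

/-- PROOF. `cls (kk u) = u`. -/
theorem kk_inj {q a b : ℕ} (hq : 1 < q) (hab : Nat.Coprime (a + b) q) :
    Function.Injective fun u : Phi q a b => kk q a b u := by
  intro u v h
  apply Subtype.ext
  rw [← Sga_cls hq hab u, ← Sga_cls hq hab v]
  exact congrArg (cls q a b) h

theorem sg_of_le {q a b : ℕ} (hq : 1 < q) (hab : Nat.Coprime (a + b) q) {n : ℕ} (h : q - 1 ≤ n) :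
    sg q a b n := by
  by_contra hn
  obtain ⟨u, hu⟩ := (not_sg_iff hq hab n).1 hn
  have h1 := kk_le u
  omega

theorem sg_zero (q a b : ℕ) : sg q a b 0 := by
  unfold sg
  rw [Sga_cls_zero, Sga_Nk_zero]

/-- `1` is a gap: `k = cls 1` is a unit mod `q`; if `sg 1`, then `Nk k = 1`, so `q` divides `k a` or `k b`, so `a` or
`b`. -/
theorem exists_kk_one {q a b : ℕ} (hq : 1 < q) (ha : ¬ q ∣ a) (hb : ¬ q ∣ b)
    (hab : Nat.Coprime (a + b) q) : ∃ u : Phi q a b, kk q a b u = 1 ∧ Nat.Coprime u q := by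
  have hns : ¬ sg q a b 1 := by
    intro h
    unfold sg at h
    have h1 : Nk q a b (cls q a b 1) ≡ 1 [MOD q] :=
      (Nk_modEq q a b (cls q a b 1)).trans (cls_spec hq hab 1)
    have h2 : Nk q a b (cls q a b 1) = 1 := by
      have h3 : Nk q a b (cls q a b 1) % q = 1 % q := h1
      rw [Nat.mod_eq_of_lt (by omega), Nat.mod_eq_of_lt (by omega)] at h3
      exact h3
    have h7 := cls_spec hq hab 1
    have h8 : Nat.gcd (cls q a b 1 * (a + b)) q = 1 := by
      rw [h7.gcd_eq, Nat.gcd_one_left]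
    have h9 : Nat.Coprime (cls q a b 1) q := Nat.Coprime.coprime_dvd_left (Dvd.intro _ rfl) h8
    unfold Nk at h2
    rcases (by omega : (cls q a b 1 * a) % q = 0 ∨ (cls q a b 1 * b) % q = 0) with h5 | h5
    · exact ha (Nat.Coprime.dvd_of_dvd_mul_left h9.symm (Nat.dvd_of_mod_eq_zero h5))
    · exact hb (Nat.Coprime.dvd_of_dvd_mul_left h9.symm (Nat.dvd_of_mod_eq_zero h5))
  obtain ⟨u, hu⟩ := (not_sg_iff hq hab 1).1 hns
  refine ⟨u, hu, ?_⟩
  have h7 : 1 ≡ (u : ℕ) * (a + b) [MOD q] := by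
    have := kk_modEq u
    rwa [hu] at this
  have h8 : Nat.gcd ((u : ℕ) * (a + b)) q = 1 := by
    rw [← h7.gcd_eq, Nat.gcd_one_left]
  exact Nat.Coprime.coprime_dvd_left (Dvd.intro _ rfl) h8

theorem zt_pow_q {q : ℕ} (hq : 1 < q) : zt q ^ q = 1 :=
  (Complex.isPrimitiveRoot_exp q (by omega)).pow_eq_one

theorem zt_ne_zero (q : ℕ) : zt q ≠ 0 := Complex.exp_ne_zero _

/-- PROOF. `kk_modEq`, `zt_pow_q`. -/
theorem zt_pow_kk {q a b : ℕ} (hq : 1 < q) (u : Phi q a b) :
    zt q ^ ((u : ℕ) * (a + b)) = zt q ^ kk q a b u := by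
  have h1 : ∀ n : ℕ, zt q ^ n = zt q ^ (n % q) := by
    intro n
    conv_lhs => rw [← Nat.mod_add_div n q]
    rw [pow_add, pow_mul, zt_pow_q hq, one_pow, mul_one]
  rw [h1, h1 (kk q a b u), (kk_modEq u : _ % q = _ % q)]

/-- PROOF. `sg_of_le`. -/
theorem infinite_sg {q a b : ℕ} (hq : 1 < q) (hab : Nat.Coprime (a + b) q) :
    (Set.ofPred (sg q a b)).Infinite := by
  rw [Set.infinite_iff_exists_gt]
  intro n
  exact ⟨max (n + 1) (q - 1), sg_of_le hq hab (le_max_right _ _),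
    lt_of_lt_of_le (Nat.lt_succ_self n) (le_max_left _ _)⟩

theorem sg_nn {q a b : ℕ} (hq : 1 < q) (hab : Nat.Coprime (a + b) q) (j : ℕ) : sg q a b (nn q a b j) := by
  exact Nat.nth_mem_of_infinite (infinite_sg hq hab) j

theorem nn_strictMono {q a b : ℕ} (hq : 1 < q) (hab : Nat.Coprime (a + b) q) :
    StrictMono (nn q a b) := by
  exact Nat.nth_strictMono (infinite_sg hq hab)

theorem nn_zero {q a b : ℕ} (hq : 1 < q) (hab : Nat.Coprime (a + b) q) : nn q a b 0 = 0 := by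
  exact Nat.nth_zero_of_zero (sg_zero q a b)

private theorem Sgb_gaps {q a b : ℕ} (hq : 1 < q) (hab : Nat.Coprime (a + b) q) :
    ((Finset.univ : Finset (Phi q a b)).image fun u : Phi q a b => kk q a b u).card = gF q a b := by
  rw [Finset.card_image_of_injective _ (kk_inj hq hab), Finset.card_univ, Fintype.card_coe, gF]

private theorem Sgb_count (p : ℕ → Prop) [DecidablePred p] (n : ℕ) :
    Nat.count p n + ((range n).filter fun m => ¬ p m).card = n := by
  rw [Nat.count_eq_card_filter_range, Finset.card_filter_add_card_filter_not, card_range]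

/-- PROOF. The number of `n < nn j` with `sg n` is `j` (`Nat.count_nth`), the number of gaps is `g`
(`not_sg_iff`, `kk_inj`), so `nn j ≤ j + g`. -/
theorem nn_le {q a b : ℕ} (hq : 1 < q) (ha : ¬ q ∣ a) (hb : ¬ q ∣ b) (hab : Nat.Coprime (a + b) q)
    (h3 : 3 ≤ q) (j : ℕ) : nn q a b j ≤ gF q a b + j := by
  classical
  have h1 : Nat.count (sg q a b) (nn q a b j) = j := Nat.count_nth_of_infinite (infinite_sg hq hab) j
  have h2 := Sgb_count (sg q a b) (nn q a b j)
  have h4 : ((range (nn q a b j)).filter fun m => ¬ sg q a b m).card ≤ gF q a b := by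
    rw [← Sgb_gaps hq hab]
    refine Finset.card_le_card fun m hm => ?_
    rw [mem_filter] at hm
    obtain ⟨u, hu⟩ := (not_sg_iff hq hab m).1 hm.2
    rw [mem_image]
    exact ⟨u, mem_univ _, hu⟩
  omega

/-- PROOF. Let `n = g + j ≥ q - 1`. Then `sg n` (`sg_of_le`), and all `g` gaps are below `n`
(`kk_le`), so the number of `m < n` with `sg m` is `n - g = j`; `Nat.nth_count`. -/
theorem nn_eq {q a b : ℕ} (hq : 1 < q) (ha : ¬ q ∣ a) (hb : ¬ q ∣ b) (hab : Nat.Coprime (a + b) q)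
    (h3 : 3 ≤ q) {j : ℕ} (hj : q ≤ j) : nn q a b j = gF q a b + j := by
  classical
  have hn : sg q a b (gF q a b + j) := sg_of_le hq hab (by omega)
  have h2 := Sgb_count (sg q a b) (gF q a b + j)
  have h4 : ((range (gF q a b + j)).filter fun m => ¬ sg q a b m).card = gF q a b := by
    refine (congrArg Finset.card ?_).trans (Sgb_gaps hq hab)
    ext m
    rw [mem_filter, mem_image, mem_range]
    constructor
    · rintro ⟨-, h⟩
      obtain ⟨u, hu⟩ := (not_sg_iff hq hab m).1 h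
      exact ⟨u, mem_univ _, hu⟩
    · rintro ⟨u, -, hu⟩
      have h5 := kk_le u
      have hu' : kk q a b u = m := hu
      exact ⟨by omega, (not_sg_iff hq hab m).2 ⟨u, hu'⟩⟩
  have h5 : Nat.count (sg q a b) (gF q a b + j) = j := by omega
  have h6 := Nat.nth_count hn
  rw [h5] at h6
  exact h6

theorem gF_pos {q a b : ℕ} (hq : 1 < q) (ha : ¬ q ∣ a) (hb : ¬ q ∣ b) (hab : Nat.Coprime (a + b) q) :
    0 < gF q a b := by
  obtain ⟨u, -, -⟩ := exists_kk_one hq ha hb hab
  exact Finset.card_pos.2 ⟨u, u.2⟩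

private theorem cc_val_le {q : ℕ} (hq : q.Prime) {v p : ℕ} (h : q ^ v ∣ p.factorial) : v ≤ p := by
  have := Fact.mk hq
  have h1 : v ≤ padicValNat q p.factorial :=
    (padicValNat_dvd_iff_le (Nat.factorial_ne_zero p)).1 h
  have h2 := sub_one_mul_padicValNat_factorial (p := q) p
  have h3 : 1 ≤ q - 1 := by have := hq.two_le; omega
  have h4 : padicValNat q p.factorial ≤ (q - 1) * padicValNat q p.factorial :=
    Nat.le_mul_of_pos_left _ h3
  omega

private theorem cc_dvd {q : ℕ} {m : ℕ} (hm : Nat.Coprime q m) (hm0 : 0 < m) {p : ℕ}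
    (hmp : m ∣ p.factorial) (k : ℕ) :
    (m : ℤ) ∣ ∏ i ∈ range p, ((q : ℤ) * (i : ℤ) - (k : ℤ)) := by
  have hcop : IsCoprime (q : ℤ) (m : ℤ) :=
    Nat.isCoprime_iff_coprime.2 hm
  obtain ⟨u, w, huw⟩ := hcop
  obtain ⟨c, hc⟩ : ∃ c : ℕ, (m : ℤ) ∣ (-(k : ℤ) * u) - (c : ℤ) := by
    refine ⟨((-(k : ℤ) * u) % (m : ℤ)).toNat, ?_⟩
    have h1 : 0 ≤ (-(k : ℤ) * u) % (m : ℤ) := Int.emod_nonneg _ (by omega)
    rw [Int.toNat_of_nonneg h1]
    exact Int.dvd_self_sub_emod
  have hmod : ∀ i : ℕ, ((q : ℤ) * (i : ℤ) - (k : ℤ)) ≡ ((q : ℤ) * ((c : ℤ) + (i : ℤ))) [ZMOD (m : ℤ)] := by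
    intro i
    rw [Int.modEq_iff_dvd]
    obtain ⟨d, hd⟩ := hc
    refine ⟨-(q : ℤ) * d + k * w, ?_⟩
    have hd' : (c : ℤ) = -(k : ℤ) * u - m * d := by linarith
    rw [hd']
    linear_combination (-(k : ℤ)) * huw
  have hprod : (∏ i ∈ range p, ((q : ℤ) * (i : ℤ) - (k : ℤ))) ≡
      ∏ i ∈ range p, ((q : ℤ) * ((c : ℤ) + (i : ℤ))) [ZMOD (m : ℤ)] :=
    Int.ModEq.prod fun i _ => hmod i
  have hasc : ∏ i ∈ range p, ((q : ℤ) * ((c : ℤ) + (i : ℤ))) =
      (q : ℤ) ^ p * ((c.ascFactorial p : ℕ) : ℤ) := by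
    rw [Finset.prod_mul_distrib, Finset.prod_const, Finset.card_range, Nat.ascFactorial_eq_prod_range]
    push_cast
    rfl
  rw [hasc] at hprod
  have h5 : (m : ℤ) ∣ (q : ℤ) ^ p * ((c.ascFactorial p : ℕ) : ℤ) :=
    Dvd.dvd.mul_left (Int.natCast_dvd_natCast.2 (hmp.trans (Nat.factorial_dvd_ascFactorial c p))) _
  exact (Int.ModEq.dvd_iff hprod).2 h5

private theorem cc_split {q : ℕ} (p : ℕ) :
    ∃ d m : ℕ, p.factorial = d * m ∧ d ∣ q ^ p ∧ Nat.Coprime q m := by
  obtain ⟨m, hm⟩ := Nat.gcd_dvd_left p.factorial (q ^ p)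
  refine ⟨Nat.gcd p.factorial (q ^ p), m, hm, Nat.gcd_dvd_right _ _, ?_⟩
  by_contra hcon
  obtain ⟨l, hl, hlq, hlm⟩ := Nat.Prime.not_coprime_iff_dvd.1 hcon
  have := Fact.mk hl
  have h1 : l ^ (padicValNat l p.factorial) ∣ p.factorial := pow_padicValNat_dvd
  have h2 : padicValNat l p.factorial ≤ p := cc_val_le hl h1
  have h3 : l ^ (padicValNat l p.factorial) ∣ q ^ p :=
    (pow_dvd_pow l h2).trans (pow_dvd_pow_of_dvd hlq p)
  have h4 := Nat.dvd_gcd h1 h3
  have h5 : l ^ (padicValNat l p.factorial + 1) ∣ p.factorial := by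
    rw [pow_succ]
    conv_rhs => rw [hm]
    exact mul_dvd_mul h4 hlm
  have h6 := (padicValNat_dvd_iff_le (Nat.factorial_ne_zero p)).1 h5
  omega

/-- PROOF. `p! = d m` with `m` prime to `q`, `d ∣ q^p` (`d = gcd(p!, q^p)`; for a prime `l` dividing `q` the
exponent of `l` in `p!` is at most `p`). With `q r ≡ 1 mod m`:
`r^p ∏ (q i - k) ≡ ∏ (i - r k) mod m`, a product of `p` consecutive integers, divisible by `p!`,
so by `m`; hence `m ∣ ∏_(i<p) (q i - k)`. And `q^p cc (k/q) p = ∏ (q i - k) / p!`. So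
`q^(2p) cc (k/q) p = q^p ∏ (q i - k) / (d m)` is an integer. -/
theorem cc_int {q : ℕ} (hq : 1 < q) (k p : ℕ) :
    ∃ z : ℤ, (q : ℝ) ^ (2 * p) * cc ((k : ℝ) / (q : ℝ)) p = z := by
  obtain ⟨d, m, hdm, ⟨e, he⟩, hcop⟩ := cc_split (q := q) p
  have hm0 : 0 < m := by
    rcases Nat.eq_zero_or_pos m with h | h
    · rw [h, mul_zero] at hdm
      exact absurd hdm (Nat.factorial_ne_zero p)
    · exact h
  have hd0 : 0 < d := by
    rcases Nat.eq_zero_or_pos d with h | h
    · rw [h, zero_mul] at hdm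
      exact absurd hdm (Nat.factorial_ne_zero p)
    · exact h
  obtain ⟨t, ht⟩ := cc_dvd hcop hm0 (Dvd.intro_left _ hdm.symm) k
  refine ⟨(e : ℤ) * t, ?_⟩
  have hq0 : (q : ℝ) ≠ 0 := Nat.cast_ne_zero.2 (by omega)
  have hf0 : ((p.factorial : ℕ) : ℝ) ≠ 0 := Nat.cast_ne_zero.2 (Nat.factorial_ne_zero p)
  have h1 : cc ((k : ℝ) / (q : ℝ)) p =
      (∏ i ∈ range p, ((q : ℝ) * (i : ℝ) - (k : ℝ))) / ((q : ℝ) ^ p * (p.factorial : ℝ)) := by
    unfold cc
    have h2 : ((q : ℝ) ^ p * (p.factorial : ℝ)) = ∏ i ∈ range p, ((q : ℝ) * ((i : ℝ) + 1)) := by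
      rw [Finset.prod_mul_distrib, Finset.prod_const, Finset.card_range,
        ← Finset.prod_range_add_one_eq_factorial]
      push_cast
      rfl
    rw [h2, ← Finset.prod_div_distrib]
    refine Finset.prod_congr rfl fun i _ => ?_
    have hi : ((i : ℝ) + 1) ≠ 0 := by positivity
    field_simp
  have h3 : (∏ i ∈ range p, ((q : ℝ) * (i : ℝ) - (k : ℝ))) = (m : ℝ) * (t : ℝ) := by
    have := congrArg (fun z : ℤ => (z : ℝ)) ht
    simpa using this
  have h4 : (p.factorial : ℝ) = (d : ℝ) * (m : ℝ) := by exact_mod_cast hdm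
  have hm1 : (m : ℝ) ≠ 0 := Nat.cast_ne_zero.2 hm0.ne'
  have hd1 : (d : ℝ) ≠ 0 := Nat.cast_ne_zero.2 hd0.ne'
  have h5 : (q : ℝ) ^ p = (d : ℝ) * (e : ℝ) := by exact_mod_cast he
  have he1 : (e : ℝ) ≠ 0 := by
    intro h
    rw [h, mul_zero] at h5
    exact pow_ne_zero p hq0 h5
  rw [h1, h3, h4, two_mul, pow_add]
  push_cast
  rw [h5]
  field_simp

/-- `g = (q-1)/2`. The columns `j < g` are those of the identity, in column `j ≥ g` the entry in row `j - q p` is
`c (bt (g + j)) p`. -/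
noncomputable def Tq (q a b : ℕ) (c : ℝ → ℕ → ℝ) : Mat := fun i j =>
  if j < q then (if i = j then 1 else 0)
  else if i ≤ j ∧ q ∣ j - i then ((c (bt q a b (gF q a b + j)) ((j - i) / q) : ℝ) : ℂ) else 0

theorem Tq_upp {q a b : ℕ} (c : ℝ → ℕ → ℝ) (i j : ℕ) (h : j < i) : Tq q a b c i j = 0 := by
  unfold Tq
  rw [if_neg (show ¬ i = j by omega), if_neg (show ¬ (i ≤ j ∧ q ∣ j - i) from fun h1 => by omega)]
  split_ifs <;> rfl

theorem Tq_dia {q a b : ℕ} {c : ℝ → ℕ → ℝ} (hc : ∀ β, c β 0 = 1) (i : ℕ) :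
    Tq q a b c i i = 1 := by
  have h : i ≤ i ∧ q ∣ i - i := ⟨le_rfl, by rw [Nat.sub_self]; exact dvd_zero q⟩
  unfold Tq
  rw [if_pos h, if_pos rfl, Nat.sub_self, Nat.zero_div, hc, Complex.ofReal_one]
  split_ifs <;> rfl

private theorem Tq_nz {q a b : ℕ} {c : ℝ → ℕ → ℝ} {i j : ℕ} (h : Tq q a b c i j ≠ 0) :
    i ≤ j ∧ q ∣ j - i := by
  unfold Tq at h
  split_ifs at h with h1 h2 h3
  · rw [h2, Nat.sub_self]
    exact ⟨le_rfl, dvd_zero q⟩
  · exact absurd rfl h
  · exact h3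
  · exact absurd rfl h

private theorem Tq_val {q a b : ℕ} (hq : 0 < q) {c : ℝ → ℕ → ℝ} {i p : ℕ}
    (h : ¬ i + q * p < q) :
    Tq q a b c i (i + q * p) = ((c (bt q a b (gF q a b + (i + q * p))) p : ℝ) : ℂ) := by
  unfold Tq
  rw [if_neg h, if_pos ⟨Nat.le_add_right _ _, by rw [Nat.add_sub_cancel_left]; exact dvd_mul_right q p⟩,
    Nat.add_sub_cancel_left, Nat.mul_div_cancel_left p hq]

private theorem Tq_val' {q a b : ℕ} (hq : 0 < q) {c : ℝ → ℕ → ℝ} (hc : ∀ β, c β 0 = 1)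
    {i p r : ℕ} (h : p ≤ r) :
    Tq q a b c i (i + q * p) = ((c (bt q a b (gF q a b + (i + q * r))) p : ℝ) : ℂ) := by
  by_cases h1 : i + q * p < q
  · have h2 : p = 0 := by
      rcases Nat.eq_zero_or_pos p with h3 | h3
      · exact h3
      · have : q * 1 ≤ q * p := Nat.mul_le_mul_left q h3
        omega
    rw [h2, mul_zero, add_zero, Tq_dia hc, hc, Complex.ofReal_one]
  · rw [Tq_val hq h1]
    have h2 : gF q a b + (i + q * p) ≡ gF q a b + (i + q * r) [MOD q] := by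
      obtain ⟨s, rfl⟩ := Nat.exists_eq_add_of_le h
      have h3 : gF q a b + (i + q * (p + s)) = gF q a b + (i + q * p) + q * s := by ring
      rw [h3]
      unfold Nat.ModEq
      rw [Nat.add_mul_mod_self_left]
    rw [bt_congr h2]

/-- PROOF. Entry `(i, j)`. If `j < g` only `k = j` contributes. Let `j ≥ g`. A nonzero term has
`k ≤ j`, `q ∣ j - k`, and either `k ≥ g`, `i ≤ k`, `q ∣ k - i` or `k = i < g`. So all terms vanish unless
`j = i + q p`, and then `k = i + q p'`, `p' ≤ p`. For these `k` the left entry is `c β p'` with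
`β = bt (g + j)`: if `k ≥ g` because `bt (g + k) = bt (g + j)` (`bt_congr`), if `k < g` because then `p' = 0`
(`g < q`) and `c β 0 = 1`. The right entry is `d β (p - p')`. So the sum is the convolution. -/
theorem Tq_mul {q a b : ℕ} (hq : 0 < q) {c d : ℝ → ℕ → ℝ} (hc : ∀ β, c β 0 = 1)
    (hd : ∀ β, d β 0 = 1)
    (hcd : ∀ β p, ∑ i ∈ antidiagonal p, c β i.1 * d β i.2 = if p = 0 then 1 else 0) :
    mmul (Tq q a b c) (Tq q a b d) = mone := by
  funext i j
  change ∑' k, Tq q a b c i k * Tq q a b d k j = if i = j then 1 else 0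
  by_cases hj : j < q
  · have h1 : ∀ k, Tq q a b d k j = if k = j then 1 else 0 := fun k => by
      unfold Tq
      rw [if_pos hj]
    rw [tsum_eq_single j fun k hk => by rw [h1, if_neg hk, mul_zero], h1, if_pos rfl, mul_one]
    unfold Tq
    rw [if_pos hj]
  · by_cases hij : i ≤ j ∧ q ∣ j - i
    · obtain ⟨h1, p, h2⟩ := hij
      obtain rfl : j = i + q * p := by omega
      have hsum : ∑' k, Tq q a b c i k * Tq q a b d k (i + q * p) =
          ∑ r ∈ range (p + 1), Tq q a b c i (i + q * r) * Tq q a b d (i + q * r) (i + q * p) := by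
        have hinj : Set.InjOn (fun r : ℕ => i + q * r) (range (p + 1) : Set ℕ) := by
          intro x _ y _ hxy
          have h3 : q * x = q * y := Nat.add_left_cancel hxy
          exact Nat.eq_of_mul_eq_mul_left hq h3
        rw [← Finset.sum_image (f := fun k => Tq q a b c i k * Tq q a b d k (i + q * p)) hinj]
        refine tsum_eq_sum fun k hk => ?_
        by_contra h0
        obtain ⟨h3, r, h4⟩ := Tq_nz (left_ne_zero_of_mul h0)
        have h5 := (Tq_nz (right_ne_zero_of_mul h0)).1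
        apply hk
        rw [Finset.mem_image]
        refine ⟨r, ?_, by omega⟩
        rw [Finset.mem_range]
        by_contra h6
        have h7 : q * (p + 1) ≤ q * r := Nat.mul_le_mul_left q (by omega)
        rw [mul_add] at h7
        omega
      rw [hsum]
      have hterm : ∀ r ∈ range (p + 1),
          Tq q a b c i (i + q * r) * Tq q a b d (i + q * r) (i + q * p) =
          ((c (bt q a b (gF q a b + (i + q * p))) r *
            d (bt q a b (gF q a b + (i + q * p))) (p - r) : ℝ) : ℂ) := by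
        intro r hr
        rw [Finset.mem_range] at hr
        obtain ⟨s, rfl⟩ := Nat.exists_eq_add_of_le (show r ≤ p by omega)
        rw [Tq_val' hq hc (show r ≤ r + s by omega)]
        have h3 : i + q * (r + s) = (i + q * r) + q * s := by ring
        rw [Nat.add_sub_cancel_left]
        have h4 : Tq q a b d (i + q * r) (i + q * (r + s)) =
            ((d (bt q a b (gF q a b + (i + q * (r + s)))) s : ℝ) : ℂ) := by
          rw [h3]
          refine Tq_val hq ?_
          rw [← h3]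
          exact hj
        rw [h4, Complex.ofReal_mul]
      rw [Finset.sum_congr rfl hterm, ← Complex.ofReal_sum]
      have h5 := hcd (bt q a b (gF q a b + (i + q * p))) p
      rw [Finset.Nat.sum_antidiagonal_eq_sum_range_succ
        (f := fun x y => c (bt q a b (gF q a b + (i + q * p))) x *
          d (bt q a b (gF q a b + (i + q * p))) y)] at h5
      rw [← Nat.succ_eq_add_one, h5]
      by_cases hp : p = 0
      · rw [if_pos hp, if_pos (by rw [hp, mul_zero, add_zero]), Complex.ofReal_one]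
      · have h6 : 0 < q * p := Nat.mul_pos hq (Nat.pos_of_ne_zero hp)
        rw [if_neg hp, if_neg (by omega), Complex.ofReal_zero]
    · have hne : i ≠ j := by
        rintro rfl
        exact hij ⟨le_rfl, by rw [Nat.sub_self]; exact dvd_zero q⟩
      rw [if_neg hne]
      have h0 : ∀ k, Tq q a b c i k * Tq q a b d k j = 0 := by
        intro k
        by_contra h0
        obtain ⟨h1, h2⟩ := Tq_nz (left_ne_zero_of_mul h0)
        obtain ⟨h3, h4⟩ := Tq_nz (right_ne_zero_of_mul h0)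
        apply hij
        refine ⟨h1.trans h3, ?_⟩
        have h5 : j - i = (k - i) + (j - k) := by omega
        rw [h5]
        exact dvd_add h2 h4
      rw [tsum_congr h0, tsum_zero]

private theorem Tq_bd' {q a b : ℕ} (hq : 0 < q) {c : ℝ → ℕ → ℝ}
    (hc : ∀ β, 0 ≤ β → β ≤ 1 → ∀ p, |c β p| ≤ 1) : Bd (wt (Tq q a b c)) := by
  have h1 : ∀ n, bt q a b n ≤ 1 := by
    intro n
    unfold bt al
    have h0 : (0 : ℝ) < q := by exact_mod_cast hq
    rw [div_le_one h0]
    exact_mod_cast (Nat.mod_lt _ hq).le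
  have h2 : ∀ i j, ‖Tq q a b c i j‖ ≤ 1 := by
    intro i j
    unfold Tq
    split_ifs
    · rw [norm_one]
    · rw [norm_zero]
      exact zero_le_one
    · rw [Complex.norm_real]
      exact hc _ (bt_nonneg q a b _) (h1 _) _
    · rw [norm_zero]
      exact zero_le_one
  refine ⟨_, bdC_upper summable_geometric_two (fun n => by positivity) (fun i j hij => ?_)
    (fun i j hij => ?_)⟩
  · change ‖(2 : ℂ) ^ ((i : ℤ) - (j : ℤ)) * Tq q a b c i j‖ ≤ (1 / 2 : ℝ) ^ (j - i)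
    obtain ⟨m, rfl⟩ := Nat.exists_eq_add_of_le hij
    have h3 : ‖(2 : ℂ) ^ ((i : ℤ) - ((i + m : ℕ) : ℤ))‖ = (1 / 2 : ℝ) ^ m := by
      have h4 : (i : ℤ) - ((i + m : ℕ) : ℤ) = -(m : ℤ) := by
        push_cast
        ring
      rw [h4, zpow_neg, zpow_natCast, norm_inv, norm_pow, Complex.norm_ofNat, one_div, inv_pow]
    rw [norm_mul, h3, Nat.add_sub_cancel_left]
    exact mul_le_of_le_one_right (by positivity) (h2 _ _)
  · change (2 : ℂ) ^ ((i : ℤ) - (j : ℤ)) * Tq q a b c i j = 0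
    rw [Tq_upp c i j hij, mul_zero]

/-- PROOF. `bdC_upper` with `B n = 2^(-n)`: `‖wt A i j‖ = 2^(i-j) ‖A i j‖`, `‖A i j‖ ≤ 1`
(`bt_nonneg`, `bt_lt_one`). -/
theorem Tq_bd {q a b : ℕ} (hq : 1 < q) {c : ℝ → ℕ → ℝ}
    (hc : ∀ β, 0 ≤ β → β ≤ 1 → ∀ p, |c β p| ≤ 1) : Bd (wt (Tq q a b c)) :=
  Tq_bd' (zero_lt_one.trans hq) hc

/-- the coefficient of `hl t l` in `Mt t i j`: `cc p` if `l + nn j = g + i + q p` -/
noncomputable def ej (q a b i j l : ℕ) : ℝ :=
  if gF q a b + i ≤ l + nn q a b j ∧ q ∣ l + nn q a b j - (gF q a b + i) then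
    cc (bt q a b (nn q a b j)) ((l + nn q a b j - (gF q a b + i)) / q) else 0

/-- PROOF. `cc_abs_le`, `bt_nonneg`, `bt_lt_one`. -/
theorem ej_abs_le {q : ℕ} (hq : 1 < q) (a b i j l : ℕ) : |ej q a b i j l| ≤ 1 := by
  unfold ej
  split_ifs with h
  · exact cc_abs_le (bt_nonneg _ _ _ _) (bt_lt_one hq _ _ _).le _
  · simp

theorem ej_norm_le {q : ℕ} (hq : 1 < q) (a b i j l : ℕ) : ‖(ej q a b i j l : ℂ)‖ ≤ 1 := by
  rw [Complex.norm_real]
  exact ej_abs_le hq a b i j l

/-- a nonzero coefficient determines `p` -/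
theorem ej_ne {q a b i j l : ℕ} (h : ej q a b i j l ≠ 0) :
    ∃ p, l + nn q a b j = gF q a b + i + q * p ∧
      ej q a b i j l = cc (bt q a b (nn q a b j)) p := by
  unfold ej at h ⊢
  split_ifs at h ⊢ with h1
  · refine ⟨(l + nn q a b j - (gF q a b + i)) / q, ?_, rfl⟩
    rw [Nat.mul_div_cancel' h1.2]
    omega
  · exact absurd rfl h

/-- PROOF. Reindexing of the sum over `p` by `l = g + i + q p - nn j` (injective on the set of `p` with
`nn j ≤ g + i + q p`; the terms for the other `p` and for the `l` not of this form are `0`;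
`tsum_eq_tsum_of_ne_zero_bij` or `Function.Injective.tsum_eq`). -/
theorem Mt_eq {q a b : ℕ} (hq : 1 < q) (t : Phi q a b → ℂ) (i j : ℕ) :
    Mt q a b t i j = ∑' l, (ej q a b i j l : ℂ) * hl q a b t l := by
  have hq0 := (zero_lt_one.trans hq)
  set n := nn q a b j with hn
  set G : ℕ → ℂ := fun p => if n ≤ gF q a b + i + q * p then
    (cc (bt q a b n) p : ℂ) * hl q a b t (gF q a b + i + q * p - n) else 0 with hG
  set F : ℕ → ℂ := fun l => (ej q a b i j l : ℂ) * hl q a b t l with hF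
  have hFG : ∀ p, n ≤ gF q a b + i + q * p → F (gF q a b + i + q * p - n) = G p := by
    intro p hp
    simp only [hF, hG, if_pos hp]
    congr 1
    have h1 : gF q a b + i + q * p - n + n - (gF q a b + i) = q * p := by omega
    unfold ej
    rw [← hn, h1, if_pos ⟨by omega, dvd_mul_right _ _⟩, Nat.mul_div_cancel_left _ hq0]
  have hsup : ∀ p, G p ≠ 0 → n ≤ gF q a b + i + q * p := by
    intro p hp
    by_contra h
    exact hp (if_neg h)
  refine (tsum_eq_tsum_of_ne_zero_bij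
    (fun x : Function.support G => gF q a b + i + q * x.1 - n) ?_ ?_ ?_).symm
  · rintro ⟨x, hx⟩ ⟨y, hy⟩ hxy
    have h1 := hsup x hx
    have h2 := hsup y hy
    have h3 : gF q a b + i + q * x - n = gF q a b + i + q * y - n := hxy
    have h4 : q * x = q * y := by omega
    exact Subtype.ext (Nat.eq_of_mul_eq_mul_left hq0 h4)
  · intro l hl0
    have h0 : F l ≠ 0 := hl0
    have h1 : ej q a b i j l ≠ 0 := by
      intro h
      apply h0
      simp only [hF, h, Complex.ofReal_zero, zero_mul]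
    obtain ⟨p, hp, -⟩ := ej_ne h1
    rw [← hn] at hp
    have h2 : gF q a b + i + q * p - n = l := by omega
    refine ⟨⟨p, ?_⟩, h2⟩
    have h3 := hFG p (by omega)
    rw [h2] at h3
    rw [Function.mem_support, ← h3]
    exact h0
  · rintro ⟨x, hx⟩
    exact hFG x (hsup x hx)

/-- the part of `w_(nn j)` with exponents at most `-g` -/
noncomputable def PW (q a b : ℕ) : Mat := fun l j =>
  if gF q a b + l ≤ nn q a b j ∧ q ∣ nn q a b j - (gF q a b + l) then
    ((cc (bt q a b (nn q a b j)) ((nn q a b j - (gF q a b + l)) / q) : ℝ) : ℂ) else 0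

/-- the contribution of the other exponents -/
noncomputable def Rm (q a b : ℕ) (t : Phi q a b → ℂ) : Mat := fun i j =>
  ∑' l : ℕ, if i < l then (ej q a b i j l : ℂ) * hl q a b t l else 0

/-- PROOF. `PW l' j = ej i j (i - l')` for `l' ≤ i`. `Mt_eq`, `hl_summable`, split the sum at `l ≤ i`, and
`l = i - l'`. -/
theorem Mt_split {q a b : ℕ} (hq : 1 < q) (t : Phi q a b → ℂ) :
    Mt q a b t = mmul (Lt q a b t) (PW q a b) + Rm q a b t := by
  funext i j
  have hs : Summable fun l => (ej q a b i j l : ℂ) * hl q a b t l :=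
    (hl_summable (fun l => ej_norm_le hq a b i j l) t).of_norm
  have h1 : mmul (Lt q a b t) (PW q a b) i j =
      ∑ l ∈ range (i + 1), (ej q a b i j l : ℂ) * hl q a b t l := by
    rw [← sum_range_reflect]
    unfold mmul
    rw [tsum_eq_sum (s := range (i + 1))]
    · refine sum_congr rfl fun k hk => ?_
      rw [mem_range] at hk
      have hki : k ≤ i := by omega
      have h2 : i + 1 - 1 - k = i - k := by omega
      rw [h2]
      unfold Lt PW ej
      rw [if_pos hki, mul_comm]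
      congr 1
      by_cases h3 : gF q a b + k ≤ nn q a b j
      · have h4 : i - k + nn q a b j - (gF q a b + i) = nn q a b j - (gF q a b + k) := by
          omega
        rw [h4]
        by_cases h5 : q ∣ nn q a b j - (gF q a b + k)
        · rw [if_pos ⟨h3, h5⟩, if_pos ⟨by omega, h5⟩]
        · rw [if_neg fun h => h5 h.2, if_neg fun h => h5 h.2, Complex.ofReal_zero]
      · rw [if_neg fun h => h3 h.1, if_neg fun h => h3 (by omega), Complex.ofReal_zero]
    · intro k hk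
      rw [mem_range] at hk
      unfold Lt
      rw [if_neg (by omega), zero_mul]
  have h2 : Summable fun l => if i < l then (ej q a b i j l : ℂ) * hl q a b t l else 0 := by
    refine Summable.of_norm (Summable.of_nonneg_of_le (fun l => norm_nonneg _) (fun l => ?_)
      (hl_summable (fun l => ej_norm_le hq a b i j l) t))
    split_ifs
    · exact le_rfl
    · rw [norm_zero]
      exact norm_nonneg _
  have h3 : Summable fun l => if l ∈ range (i + 1) then (ej q a b i j l : ℂ) * hl q a b t l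
      else 0 :=
    summable_of_ne_finset_zero (s := range (i + 1)) fun l hl => if_neg hl
  rw [Mt_eq hq]
  change _ = mmul (Lt q a b t) (PW q a b) i j + Rm q a b t i j
  rw [h1]
  unfold Rm
  have h4 : ∑ l ∈ range (i + 1), (ej q a b i j l : ℂ) * hl q a b t l =
      ∑' l, if l ∈ range (i + 1) then (ej q a b i j l : ℂ) * hl q a b t l else 0 := by
    rw [tsum_eq_sum (s := range (i + 1)) fun l hl => if_neg hl]
    exact sum_congr rfl fun l hl => (if_pos hl).symm
  rw [h4, ← h3.tsum_add h2]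
  refine tsum_congr fun l => ?_
  by_cases h5 : i < l
  · rw [if_pos h5, if_neg (by rw [mem_range]; omega), zero_add]
  · rw [if_neg h5, if_pos (by rw [mem_range]; omega), add_zero]

/-- PROOF. `nn_eq`. -/
theorem PW_of_ge {q a b : ℕ} (hq : 1 < q) (ha : ¬ q ∣ a) (hb : ¬ q ∣ b) (hab : Nat.Coprime (a + b) q)
    (h3 : 3 ≤ q) {j : ℕ} (hj : q ≤ j) (l : ℕ) : PW q a b l j = Tq q a b cc l j := by
  unfold PW Tq
  rw [nn_eq hq ha hb hab h3 hj, if_neg (by omega : ¬ j < q)]
  by_cases h : l ≤ j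
  · have h4 : gF q a b + j - (gF q a b + l) = j - l := by omega
    rw [h4]
    by_cases h5 : q ∣ j - l
    · rw [if_pos ⟨by omega, h5⟩, if_pos ⟨h, h5⟩]
    · rw [if_neg fun h => h5 h.2, if_neg fun h => h5 h.2]
  · rw [if_neg fun h' => h (by omega), if_neg fun h' => h h'.1]

/-- PROOF. `nn_le`. -/
theorem PW_upp {q a b : ℕ} (hq : 1 < q) (ha : ¬ q ∣ a) (hb : ¬ q ∣ b) (hab : Nat.Coprime (a + b) q)
    (h3 : 3 ≤ q) {l j : ℕ} (h : j < l) : PW q a b l j = 0 := by
  have h1 := nn_le hq ha hb hab h3 j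
  unfold PW
  exact if_neg fun h' => by omega

/-- PROOF. `PW_of_ge`, `PW_upp`, `Tq_upp`, `sm_of_finite` with `N = g`. -/
theorem sm_PW_sub {q a b : ℕ} (hq : 1 < q) (ha : ¬ q ∣ a) (hb : ¬ q ∣ b) (hab : Nat.Coprime (a + b) q)
    (h3 : 3 ≤ q) : Sm (wt (PW q a b) - wt (Tq q a b cc)) := by
  refine sm_of_finite (N := q) fun i j hij => ?_
  by_contra hc
  apply hij
  change wt (PW q a b) i j - wt (Tq q a b cc) i j = 0
  unfold wt
  rw [← mul_sub]
  by_cases hj : q ≤ j
  · rw [PW_of_ge hq ha hb hab h3 hj, sub_self, mul_zero]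
  · have hji : j < i := by omega
    rw [PW_upp hq ha hb hab h3 hji, Tq_upp cc i j hji, sub_self, mul_zero]

/-- PROOF. `sm_PW_sub` and `Tq_bd`. -/
theorem bd_PW {q a b : ℕ} (hq : 1 < q) (ha : ¬ q ∣ a) (hb : ¬ q ∣ b) (hab : Nat.Coprime (a + b) q)
    (h3 : 3 ≤ q) : Bd (wt (PW q a b)) := by
  obtain ⟨C, hC⟩ := sm_bd (sm_PW_sub hq ha hb hab h3)
  obtain ⟨D, hD⟩ := Tq_bd (q := q) (a := a) (b := b) hq
    (fun β h0 h1 p => cc_abs_le h0 h1 p)
  have h := bdC_add hC hD
  rw [sub_add_cancel] at h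
  exact ⟨_, h⟩

/-- PROOF. If `R < 0` the ball is empty. `‖wt (Rm t) i j‖ ≤ 2^i * 2^(-j) * ∑' l, if i < l then hb R l else 0`
(`ej_norm_le`, `hl_norm_le`); `tail_summable`, `hb_summable` (`x = 2`), `Summable.mul_of_nonneg`. -/
theorem Rm_dom {q : ℕ} (hq : 1 < q) (a b : ℕ) (R : ℝ) :
    Dm (Metric.closedBall (0 : Phi q a b → ℂ) R) fun t => wt (Rm q a b t) := by
  rcases lt_or_ge R 0 with hR | hR
  · refine ⟨fun _ => 0, summable_zero, fun t ht => ?_⟩
    rw [Metric.closedBall_eq_empty.2 hR] at ht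
    exact absurd ht (Set.notMem_empty t)
  have h0 : ∀ l, 0 ≤ hb q a b R l := fun l => hb_nonneg hR l
  have h2 : Summable fun l => hb q a b R l * 2 ^ l := hb_summable hR (by norm_num)
  have h1 : Summable fun l => hb q a b R l := by
    refine Summable.of_nonneg_of_le h0 (fun l => ?_) h2
    exact le_mul_of_one_le_right (h0 l) (one_le_pow₀ (by norm_num))
  have h3 : ∀ i : ℕ, Summable fun l => if i < l then hb q a b R l else 0 := by
    intro i
    refine Summable.of_nonneg_of_le (fun l => ?_) (fun l => ?_) h1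
    · split_ifs
      · exact h0 l
      · exact le_rfl
    · split_ifs
      · exact le_rfl
      · exact h0 l
  refine ⟨fun x => ((2 : ℝ) ^ x.1 * ∑' l, if x.1 < l then hb q a b R l else 0) *
    (1 / 2 : ℝ) ^ x.2, ?_, fun t ht i j => ?_⟩
  · refine (tail_summable h0 h2).mul_of_nonneg summable_geometric_two (fun i => ?_) fun j => ?_
    · refine mul_nonneg (by positivity) (tsum_nonneg fun l => ?_)
      split_ifs
      · exact h0 l
      · exact le_rfl
    · change (0 : ℝ) ≤ (1 / 2 : ℝ) ^ j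
      positivity
  · have h4 : ‖Rm q a b t i j‖ ≤ ∑' l, if i < l then hb q a b R l else 0 := by
      unfold Rm
      refine tsum_of_norm_bounded (h3 i).hasSum fun l => ?_
      split_ifs
      · rw [norm_mul]
        have h5 := ej_norm_le hq a b i j l
        have h6 := hl_norm_le (q := q) (a := a) (b := b)
          (mem_closedBall_zero_iff.1 ht) l
        calc _ ≤ 1 * hb q a b R l := mul_le_mul h5 h6 (norm_nonneg _) zero_le_one
          _ = _ := one_mul _
      · rw [norm_zero]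
    have h5 : ‖(2 : ℂ) ^ ((i : ℤ) - (j : ℤ))‖ = (2 : ℝ) ^ i * (1 / 2 : ℝ) ^ j := by
      rw [norm_zpow, Complex.norm_ofNat, zpow_sub₀ (by norm_num), zpow_natCast, zpow_natCast,
        one_div, inv_pow, div_eq_mul_inv]
    unfold wt
    rw [norm_mul, h5]
    calc (2 : ℝ) ^ i * (1 / 2 : ℝ) ^ j * ‖Rm q a b t i j‖
        ≤ (2 : ℝ) ^ i * (1 / 2 : ℝ) ^ j * ∑' l, (if i < l then hb q a b R l else 0) :=
          mul_le_mul_of_nonneg_left h4 (by positivity)
      _ = _ := by ring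

/-- the summable part -/
noncomputable def Kt (q a b : ℕ) (t : Phi q a b → ℂ) : Mat :=
  mmul (mmul (Lw q a b (-t)) (wt (Mt q a b t))) (wt (Tq q a b dd)) - mone

theorem UV_one {q : ℕ} (hq : 1 < q) (a b : ℕ) :
    mmul (wt (Tq q a b cc)) (wt (Tq q a b dd)) = mone := by
  rw [← wt_mmul, Tq_mul (zero_lt_one.trans hq) cc_zero dd_zero cc_dd, wt_mone]

theorem VU_one {q : ℕ} (hq : 1 < q) (a b : ℕ) :
    mmul (wt (Tq q a b dd)) (wt (Tq q a b cc)) = mone := by
  rw [← wt_mmul, Tq_mul (zero_lt_one.trans hq) dd_zero cc_zero dd_cc, wt_mone]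

theorem wMt_split {q a b : ℕ} (hq : 1 < q) (t : Phi q a b → ℂ) :
    wt (Mt q a b t) = mmul (Lw q a b t) (wt (PW q a b)) + wt (Rm q a b t) := by
  rw [Mt_split hq, wt_add, wt_mmul, Lw_eq]

theorem bd_wMt {q a b : ℕ} (hq : 1 < q) (ha : ¬ q ∣ a) (hb : ¬ q ∣ b) (hab : Nat.Coprime (a + b) q)
    (h3 : 3 ≤ q) (t : Phi q a b → ℂ) : Bd (wt (Mt q a b t)) := by
  rw [wMt_split hq]
  refine bd_add (bd_mul (Lw_bd t) (bd_PW hq ha hb hab h3)) (sm_bd ?_)
  exact (Rm_dom hq a b ‖t‖).sm (by simp)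

theorem Kt_eq {q a b : ℕ} (hq : 1 < q) (ha : ¬ q ∣ a) (hb : ¬ q ∣ b) (hab : Nat.Coprime (a + b) q)
    (h3 : 3 ≤ q) (t : Phi q a b → ℂ) :
    Kt q a b t = mmul (wt (PW q a b) - wt (Tq q a b cc) + mmul (Lw q a b (-t)) (wt (Rm q a b t)))
      (wt (Tq q a b dd)) := by
  have hR : Sm (wt (Rm q a b t)) := (Rm_dom hq a b ‖t‖).sm (by simp)
  have hU : Bd (wt (Tq q a b cc)) := Tq_bd hq fun β h0 h1 p => cc_abs_le h0 h1 p
  have hV : Bd (wt (Tq q a b dd)) := Tq_bd hq fun β h0 h1 p => dd_abs_le h0 h1 p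
  have hP := bd_PW hq ha hb hab h3
  have hL := Lw_bd t
  have hL' := Lw_bd (-t)
  rw [Kt, wMt_split hq, mmul_add hL' (bd_mul hL hP) (sm_bd hR), ← mmul_assoc hL' hL hP,
    Lw_neg_mul, mone_mmul, ← UV_one hq a b, ← sub_mmul (bd_add hP (bd_mul hL' (sm_bd hR))) hU hV]
  congr 1
  abel

theorem Kt_dom {q a b : ℕ} (hq : 1 < q) (ha : ¬ q ∣ a) (hb : ¬ q ∣ b) (hab : Nat.Coprime (a + b) q)
    (h3 : 3 ≤ q) (R : ℝ) : Dm (Metric.closedBall (0 : Phi q a b → ℂ) R) (Kt q a b) := by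
  have hV : Bd (wt (Tq q a b dd)) := Tq_bd hq fun β h0 h1 p => dd_abs_le h0 h1 p
  have h1 : Dm (Metric.closedBall (0 : Phi q a b → ℂ) R) fun t =>
      mmul (Lw q a b (-t)) (wt (Rm q a b t)) := by
    obtain ⟨B, hB, hL⟩ := Lw_dom q a b R
    refine Dm.mulL (B := B) hB ?_ ?_ (Rm_dom hq a b R)
    · intro t ht i j hij
      refine hL _ ?_ i j hij
      rw [norm_neg]
      simpa using ht
    · intro t _ i j hij
      exact Lw_low _ i j hij
  have h2 := ((Dm.const (S := Metric.closedBall (0 : Phi q a b → ℂ) R)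
    (sm_PW_sub hq ha hb hab h3)).add h1).mulR hV
  have h3 : Kt q a b = fun t => mmul (wt (PW q a b) - wt (Tq q a b cc) +
      mmul (Lw q a b (-t)) (wt (Rm q a b t))) (wt (Tq q a b dd)) :=
    funext fun t => Kt_eq hq ha hb hab h3 t
  rw [h3]
  exact h2

theorem Kt_sm {q a b : ℕ} (hq : 1 < q) (ha : ¬ q ∣ a) (hb : ¬ q ∣ b) (hab : Nat.Coprime (a + b) q)
    (h3 : 3 ≤ q) (t : Phi q a b → ℂ) : Sm (Kt q a b t) := by
  exact (Kt_dom hq ha hb hab h3 ‖t‖).sm (by simp)

theorem Kt_fac {q a b : ℕ} (hq : 1 < q) (ha : ¬ q ∣ a) (hb : ¬ q ∣ b) (hab : Nat.Coprime (a + b) q)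
    (h3 : 3 ≤ q) (t : Phi q a b → ℂ) :
    wt (Mt q a b t) = mmul (mmul (Lw q a b t) (mone + Kt q a b t)) (wt (Tq q a b cc)) := by
  have hU : Bd (wt (Tq q a b cc)) := Tq_bd hq fun β h0 h1 p => cc_abs_le h0 h1 p
  have hV : Bd (wt (Tq q a b dd)) := Tq_bd hq fun β h0 h1 p => dd_abs_le h0 h1 p
  have hL := Lw_bd t
  have hL' := Lw_bd (-t)
  have hM := bd_wMt hq ha hb hab h3 t
  have h1 : mone + Kt q a b t =
      mmul (mmul (Lw q a b (-t)) (wt (Mt q a b t))) (wt (Tq q a b dd)) := by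
    rw [Kt, add_sub_cancel]
  rw [h1, mmul_assoc hL (bd_mul (bd_mul hL' hM) hV) hU, mmul_assoc (bd_mul hL' hM) hV hU,
    VU_one hq, mmul_mone, ← mmul_assoc hL hL' hM, Lw_mul_neg, mone_mmul]

/-- the truncated determinants -/
noncomputable def Fn (q a b N : ℕ) (t : Phi q a b → ℂ) : ℂ := (trn (Mt q a b t) N).det

theorem Fn_eq {q a b : ℕ} (hq : 1 < q) (ha : ¬ q ∣ a) (hb : ¬ q ∣ b) (hab : Nat.Coprime (a + b) q)
    (h3 : 3 ≤ q) (N : ℕ) (t : Phi q a b → ℂ) : Fn q a b N t = (1 + trn (Kt q a b t) N).det := by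
  have hup : ∀ i j, j < i → wt (Tq q a b cc) i j = 0 := by
    intro i j hij
    rw [wt, Tq_upp _ _ _ hij, mul_zero]
  have hdi : ∀ i, wt (Tq q a b cc) i i = 1 := by
    intro i
    simp [wt, Tq_dia cc_zero]
  rw [Fn, ← det_trn_wt, Kt_fac hq ha hb hab h3, trn_upper hup, trn_lower (Lw_low t),
    Matrix.det_mul, Matrix.det_mul, det_trn_upper_one hup hdi,
    det_trn_lower_one (Lw_low t) (Lw_dia t), trn_mone_add, one_mul, mul_one]

theorem tauF_eq {q a b : ℕ} (hq : 1 < q) (ha : ¬ q ∣ a) (hb : ¬ q ∣ b) (hab : Nat.Coprime (a + b) q)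
    (h3 : 3 ≤ q) (t : Phi q a b → ℂ) : tauF q a b t = fd (Kt q a b t) := by
  unfold tauF fd
  congr 1
  funext N
  exact Fn_eq hq ha hb hab h3 N t

/-- uniform convergence on balls -/
theorem Fn_unif {q a b : ℕ} (hq : 1 < q) (ha : ¬ q ∣ a) (hb : ¬ q ∣ b) (hab : Nat.Coprime (a + b) q)
    (h3 : 3 ≤ q) (R : ℝ) :
    TendstoUniformlyOn (Fn q a b) (tauF q a b) atTop (Metric.closedBall 0 R) := by
  obtain ⟨B, hB, hK⟩ := Kt_dom hq ha hb hab h3 R
  have h := fd_unif hB hK
  have h1 : (Fn q a b) = fun N t => (1 + trn (Kt q a b t) N).det :=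
    funext fun N => funext fun t => Fn_eq hq ha hb hab h3 N t
  have h2 : tauF q a b = fun t => fd (Kt q a b t) :=
    funext fun t => tauF_eq hq ha hb hab h3 t
  rw [h1, h2]
  exact h

theorem Fn_tendsto {q a b : ℕ} (hq : 1 < q) (ha : ¬ q ∣ a) (hb : ¬ q ∣ b) (hab : Nat.Coprime (a + b) q)
    (h3 : 3 ≤ q) (t : Phi q a b → ℂ) :
    Tendsto (fun N => Fn q a b N t) atTop (𝓝 (tauF q a b t)) := by
  exact (Fn_unif hq ha hb hab h3 ‖t‖).tendsto_at (by simp)

theorem exists_fac (q a b : ℕ) (h3 : 3 ≤ q) (ha : ¬ q ∣ a)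
    (hb : ¬ q ∣ b) (hab : Nat.Coprime (a + b) q) : ∃ U V K, Fac q a b U V K := by
  have hq : 1 < q := by omega
  have hup : ∀ i j, j < i → wt (Tq q a b cc) i j = 0 := by
    intro i j hij
    rw [wt, Tq_upp _ _ _ hij, mul_zero]
  refine ⟨wt (Tq q a b cc), wt (Tq q a b dd), Kt q a b, ?_⟩
  exact
    { bU := Tq_bd hq fun β h0 h1 p => cc_abs_le h0 h1 p
      bV := Tq_bd hq fun β h0 h1 p => dd_abs_le h0 h1 p
      UV := UV_one hq a b
      VU := VU_one hq a b
      upp := hup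
      dia := fun i => by simp [wt, Tq_dia cc_zero]
      bL := Lw_bd
      L0 := Lw_zero q a b
      Ladd := Lw_add
      Lhol := Lw_diff q a b
      Ldom := Lw_dom q a b
      sK := Kt_sm hq ha hb hab h3
      fac := Kt_fac hq ha hb hab h3
      tau := tauF_eq hq ha hb hab h3 }

end Pool.Agent.Helper65.LU
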