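import Pool.Agent.Helper65.LU.Ta

/-!
PROJECT LT2, block F1-F3 for arbitrary `a`, `b`. Port of Helper13/LT (rationality, symmetry, targets).
-/

set_option autoImplicit false

namespace Pool.Agent.Helper65.LU

open Finset Filter Topology
open Pool.Agent.Helper34.LT Pool.Agent.Helper11.LT Pool.Agent.Helper13.LT

/-- the weight of tau -/
noncomputable def w0 (q a b : ℕ) : ℕ := ∑ j ∈ range q, (gF q a b + j - nn q a b j)

/-- PROOF. The terms with `j ≥ g` are `0` (`nn_eq`), the others natural numbers (`nn_le`). -/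
theorem sum_exp_eq {q a b : ℕ} (hq : 1 < q) (ha : ¬ q ∣ a) (hb : ¬ q ∣ b) (hab : Nat.Coprime (a + b) q)
    (h3 : 3 ≤ q) {N : ℕ} (hN : q ≤ N) :
    ∑ j : Fin N, (((gF q a b + j : ℕ) : ℤ) + -(nn q a b j : ℤ)) = (w0 q a b : ℤ) := by
  rw [Fin.sum_univ_eq_sum_range (fun j : ℕ =>
    (((gF q a b + j : ℕ) : ℤ) + -(nn q a b j : ℤ))) N]
  rw [← Finset.sum_subset (Finset.range_subset_range.2 hN)]
  · unfold w0
    rw [Nat.cast_sum]
    refine Finset.sum_congr rfl fun j _ => ?_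
    rw [Nat.cast_sub (nn_le hq ha hb hab h3 j)]
    ring
  · intro j _ hj
    rw [Finset.mem_range, not_lt] at hj
    rw [nn_eq hq ha hb hab h3 hj]
    ring

/-- PROOF. `Mt_eq` and `hl_ps` with `φ = ej`. -/
theorem Mt_ps {q a b : ℕ} (hq : 1 < q) (i j : ℕ) :
    PS (fun m : Phi q a b → ℕ => (ej q a b i j (wtm q a b m) : ℂ) / ∏ u, ((m u).factorial : ℂ))
      (fun t => Mt q a b t i j) := by
  have h := hl_ps (q := q) (a := a) (b := b) (φ := fun l => (ej q a b i j l : ℂ)) (C := 1)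
    (fun l => ej_norm_le hq a b i j l)
  have h2 : (fun t : Phi q a b → ℂ => Mt q a b t i j) =
      fun t => ∑' l, (ej q a b i j l : ℂ) * hl q a b t l := funext fun t => Mt_eq hq t i j
  rw [h2]
  exact h

/-- The rescaled conjugated entries.
PROOF. `Mt_ps`, `PS.scale` with `y u = q^(kk u)`, `PS.smul`, `RT_iff`: `∏ (q^(kk u))^(m u) = q^(wtm m)`. If
`ej ≠ 0`, `wtm m + nn j = g + i + q p` (`ej_ne`), the coefficient times `m!` is `q^(q p) cc (bt (nn j)) p`, an
integer by `cc_int` (`bt_eq`) and `2 p ≤ q p`. -/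
theorem entry_RT {q a b : ℕ} (hq : 1 < q) (i j : ℕ) :
    RT 1 0 (fun t : Phi q a b → ℂ =>
      (q : ℂ) ^ (-((gF q a b + i : ℕ) : ℤ) + (nn q a b j : ℤ)) *
        Mt q a b (fun u => (q : ℂ) ^ kk q a b u * t u) i j) := by
  have hq0 : (q : ℂ) ≠ 0 := by exact_mod_cast (zero_lt_one.trans hq).ne'
  rw [RT_iff le_rfl]
  refine ⟨_, ((Mt_ps hq i j).scale (fun u => (q : ℂ) ^ kk q a b u)).smul _, fun m => ?_⟩
  have hw : ∏ u : Phi q a b, ((q : ℂ) ^ kk q a b u) ^ m u = (q : ℂ) ^ wtm q a b m := by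
    unfold wtm
    rw [← Finset.prod_pow_eq_pow_sum]
    exact Finset.prod_congr rfl fun u _ => (pow_mul _ _ _).symm
  have hf : (∏ u : Phi q a b, ((m u).factorial : ℂ)) ≠ 0 :=
    Finset.prod_ne_zero_iff.2 fun u _ => by exact_mod_cast (m u).factorial_ne_zero
  by_cases h0 : ej q a b i j (wtm q a b m) = 0
  · exact ⟨0, by rw [h0]; simp⟩
  · obtain ⟨p, hp, hv⟩ := ej_ne h0
    obtain ⟨k, hk⟩ := bt_eq q a b (nn q a b j)
    obtain ⟨z, hz⟩ := cc_int hq k p
    refine ⟨(q : ℤ) ^ (q * p - 2 * p) * z, ?_⟩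
    rw [hw, hv, hk]
    have h2 : 2 * p ≤ q * p := Nat.mul_le_mul_right p hq
    have h3 : ((q : ℂ) ^ (-((gF q a b + i : ℕ) : ℤ) + (nn q a b j : ℤ))) *
        (q : ℂ) ^ wtm q a b m = (q : ℂ) ^ (q * p) := by
      rw [← zpow_natCast (q : ℂ) (wtm q a b m), ← zpow_add₀ hq0, ← zpow_natCast (q : ℂ) (q * p)]
      congr 1
      have h4 : ((wtm q a b m : ℕ) : ℤ) + (nn q a b j : ℤ) =
          ((gF q a b + i : ℕ) : ℤ) + ((q * p : ℕ) : ℤ) := by exact_mod_cast hp
      linarith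
    have h5 : (q : ℂ) ^ (q * p) = (q : ℂ) ^ (q * p - 2 * p) * (q : ℂ) ^ (2 * p) := by
      rw [← pow_add, Nat.sub_add_cancel h2]
    have h6 : (q : ℂ) ^ (2 * p) * ((cc ((k : ℝ) / (q : ℝ)) p : ℝ) : ℂ) = (z : ℂ) := by
      exact_mod_cast congrArg (fun x : ℝ => (x : ℂ)) hz
    rw [Nat.cast_one, one_pow, one_mul, Int.cast_mul, Int.cast_pow, Int.cast_natCast, ← h6]
    have h7 : ∀ A C F W : ℂ, F ≠ 0 → A * (C / F * W) * F = A * W * C := by
      intro A C F W hF
      field_simp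
    rw [h7 _ _ _ _ hf, h3, h5, mul_assoc]

/-- PROOF. `RT.det` for `entry_RT`; by `det_zpow`, `sum_exp_eq` this determinant is
`q^(-w0) * (trn (Mt (q^kk t)) N).det`; multiply by `q^w0` (`RT.zsmul`); then `RT.shrink` with `E = q^q`,
`e u = q^(kk u)` (`kk_le`). -/
theorem Fn_RT {q a b : ℕ} (hq : 1 < q) (ha : ¬ q ∣ a) (hb : ¬ q ∣ b) (hab : Nat.Coprime (a + b) q)
    (h3 : 3 ≤ q) {N : ℕ} (hN : q ≤ N) :
    RT (q ^ q) 0 (fun t : Phi q a b → ℂ => (trn (Mt q a b t) N).det) := by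
  have hq0 : (q : ℂ) ≠ 0 := by exact_mod_cast (zero_lt_one.trans hq).ne'
  have h1 := RT.det (N := N) (D := 1) le_rfl
    (f := fun i j => (fun t : Phi q a b → ℂ =>
      (q : ℂ) ^ (-((gF q a b + (i : ℕ) : ℕ) : ℤ) + (nn q a b j : ℤ)) *
        Mt q a b (fun u => (q : ℂ) ^ kk q a b u * t u) i j))
    (fun i j => entry_RT hq i j)
  have h2 := RT.zsmul le_rfl h1 ((q : ℤ) ^ w0 q a b)
  have h3' : (fun z : Phi q a b → ℂ => (((q : ℤ) ^ w0 q a b : ℤ) : ℂ) *
      (Matrix.of fun i j : Fin N => (q : ℂ) ^ (-((gF q a b + (i : ℕ) : ℕ) : ℤ) + (nn q a b j : ℤ)) *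
        Mt q a b (fun u => (q : ℂ) ^ kk q a b u * z u) i j).det) =
      fun z => (trn (Mt q a b (fun u => (q : ℂ) ^ kk q a b u * z u)) N).det := by
    funext z
    have h4 := det_zpow hq0 (fun i : Fin N => -((gF q a b + (i : ℕ) : ℕ) : ℤ))
      (fun j : Fin N => (nn q a b j : ℤ))
      (trn (Mt q a b (fun u => (q : ℂ) ^ kk q a b u * z u)) N)
    have h5 : ∑ i : Fin N, (-((gF q a b + (i : ℕ) : ℕ) : ℤ) + (nn q a b i : ℤ)) =
        -(w0 q a b : ℤ) := by
      rw [← sum_exp_eq hq ha hb hab h3 hN, ← Finset.sum_neg_distrib]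
      refine Finset.sum_congr rfl fun i _ => ?_
      ring
    rw [h5] at h4
    have h6 : (Matrix.of fun i j : Fin N =>
        (q : ℂ) ^ (-((gF q a b + (i : ℕ) : ℕ) : ℤ) + (nn q a b j : ℤ)) *
        Mt q a b (fun u => (q : ℂ) ^ kk q a b u * z u) i j).det = (q : ℂ) ^ (-(w0 q a b : ℤ)) *
        (trn (Mt q a b (fun u => (q : ℂ) ^ kk q a b u * z u)) N).det := h4
    rw [h6, ← mul_assoc]
    push_cast
    rw [← zpow_natCast, ← zpow_add₀ hq0, add_neg_cancel, zpow_zero, one_mul]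
  rw [h3'] at h2
  have h7 := RT.shrink (D := 1) (E := q ^ q) le_rfl (Nat.one_le_pow _ _ (zero_lt_one.trans hq)) h2
    (fun u => q ^ kk q a b u) (fun u => pow_dvd_pow q ((kk_le u).trans (Nat.sub_le _ _)))
  rw [one_mul] at h7
  have h8 : (fun z : Phi q a b → ℂ => (trn (Mt q a b z) N).det) = fun z : Phi q a b → ℂ =>
      (trn (Mt q a b (fun u => (q : ℂ) ^ kk q a b u * (z u / ((q ^ kk q a b u : ℕ) : ℂ)))) N).det := by
    funext z
    congr 3
    funext u
    push_cast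
    field_simp
  rw [h8]
  exact h7

/-- PROOF. `Mt_eq`, `hl_scale`; if `ej i j l ≠ 0` then `l + nn j = g + i + q p` (`ej_ne`), so
`x^l = x^(g + i - nn j)`. -/
theorem Mt_root {q a b : ℕ} (hq : 1 < q) {x : ℂ} (hx : x ^ q = 1) (t : Phi q a b → ℂ) (i j : ℕ) :
    Mt q a b (fun u => x ^ kk q a b u * t u) i j =
      x ^ (((gF q a b + i : ℕ) : ℤ) + -(nn q a b j : ℤ)) * Mt q a b t i j := by
  have hx0 : x ≠ 0 := by
    rintro rfl
    rw [zero_pow (zero_lt_one.trans hq).ne'] at hx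
    exact zero_ne_one hx
  rw [Mt_eq hq, Mt_eq hq, ← tsum_mul_left]
  refine tsum_congr fun l => ?_
  rw [hl_scale]
  by_cases h : ej q a b i j l = 0
  · rw [h, Complex.ofReal_zero, zero_mul, zero_mul, mul_zero]
  · obtain ⟨p, hp, -⟩ := ej_ne h
    have h1 : x ^ l = x ^ (((gF q a b + i : ℕ) : ℤ) + -(nn q a b j : ℤ)) := by
      have h2 : (l : ℤ) = ((gF q a b + i : ℕ) : ℤ) + -(nn q a b j : ℤ) + (q * p : ℕ) := by
        have h3 : ((l + nn q a b j : ℕ) : ℤ) = ((gF q a b + i + q * p : ℕ) : ℤ) := by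
          rw [hp]
        push_cast at h3 ⊢
        linarith
      rw [← zpow_natCast x l, h2, zpow_add₀ hx0, zpow_natCast x (q * p), pow_mul, hx, one_pow,
        mul_one]
    rw [h1]
    ring

/-- PROOF. `Mt_root`, `det_zpow`, `sum_exp_eq`. -/
theorem det_root {q a b : ℕ} (hq : 1 < q) (ha : ¬ q ∣ a) (hb : ¬ q ∣ b) (hab : Nat.Coprime (a + b) q)
    (h3 : 3 ≤ q) {N : ℕ} (hN : q ≤ N) {x : ℂ} (hx : x ^ q = 1) (t : Phi q a b → ℂ) :
    (trn (Mt q a b (fun u => x ^ kk q a b u * t u)) N).det =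
      x ^ w0 q a b * (trn (Mt q a b t) N).det := by
  have h := det_zpow (N := N) (x := x) (by
      rintro rfl
      rw [zero_pow (zero_lt_one.trans hq).ne'] at hx
      exact zero_ne_one hx)
    (fun i => ((gF q a b + i : ℕ) : ℤ)) (fun j => -(nn q a b j : ℤ)) (trn (Mt q a b t) N)
  rw [sum_exp_eq hq ha hb hab h3 hN, zpow_natCast] at h
  rw [← h]
  congr 1
  ext i j
  exact Mt_root hq hx t i j

/-- PROOF. Column `0` of `Mt 0` vanishes: `nn 0 = 0`, `hl 0 l = 0` for `l > 0`, and `g > 0`. -/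
theorem det_zero {q a b : ℕ} (hq : 1 < q) (ha : ¬ q ∣ a) (hb : ¬ q ∣ b) (hab : Nat.Coprime (a + b) q) {N : ℕ}
    (hN : 0 < N) :
    (trn (Mt q a b 0) N).det = 0 := by
  refine Matrix.det_eq_zero_of_column_eq_zero ⟨0, hN⟩ fun i => ?_
  change Mt q a b 0 i 0 = 0
  rw [Mt_eq hq, tsum_eq_single 0]
  · have h1 : ej q a b i 0 0 = 0 := by
      unfold ej
      rw [nn_zero hq hab]
      refine if_neg fun h => ?_
      have := h.1
      have := gF_pos hq ha hb hab
      omega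
    rw [h1, Complex.ofReal_zero, zero_mul]
  · intro l hl
    rw [hl_zero_left, if_neg hl, mul_zero]

/-- `g(x)` in `Mt (x e_u) = x^(g + i - nn j) Gx` -/
noncomputable def Gx (q a b i j : ℕ) (x : ℂ) : ℂ :=
  ∑' p : ℕ, if nn q a b j ≤ gF q a b + i + q * p then
    (cc (bt q a b (nn q a b j)) p : ℂ) *
      (x ^ (q * p) / ((gF q a b + i + q * p - nn q a b j).factorial : ℂ)) else 0

/-- PROOF. Termwise in the definition of `Mt`, `hl_line`. -/
theorem Mt_line {q a b : ℕ} (u : Phi q a b) (hu : kk q a b u = 1) {x : ℂ} (hx : x ≠ 0) (i j : ℕ) :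
    Mt q a b (Pi.single u x) i j =
      x ^ (((gF q a b + i : ℕ) : ℤ) + -(nn q a b j : ℤ)) * Gx q a b i j x := by
  unfold Mt Gx
  rw [← tsum_mul_left]
  refine tsum_congr fun p => ?_
  split_ifs with h
  · rw [hl_line u hu]
    have h1 : x ^ (gF q a b + i + q * p - nn q a b j) =
        x ^ (((gF q a b + i : ℕ) : ℤ) + -(nn q a b j : ℤ)) * x ^ (q * p) := by
      rw [← zpow_natCast x (gF q a b + i + q * p - nn q a b j), ← zpow_natCast x (q * p),
        ← zpow_add₀ hx]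
      congr 1
      rw [Nat.cast_sub h]
      push_cast
      ring
    rw [h1]
    ring
  · rw [mul_zero]

/-- PROOF. `Mt_line`, `det_zpow`, `sum_exp_eq`. -/
theorem det_line {q a b : ℕ} (hq : 1 < q) (ha : ¬ q ∣ a) (hb : ¬ q ∣ b) (hab : Nat.Coprime (a + b) q)
    (h3 : 3 ≤ q) {N : ℕ} (hN : q ≤ N) (u : Phi q a b) (hu : kk q a b u = 1) {x : ℂ}
    (hx : x ≠ 0) :
    (trn (Mt q a b (Pi.single u x)) N).det =
      x ^ w0 q a b * (Matrix.of fun i j : Fin N => Gx q a b i j x).det := by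
  have h := det_zpow (N := N) (x := x) hx
    (fun i => ((gF q a b + i : ℕ) : ℤ)) (fun j => -(nn q a b j : ℤ))
    (Matrix.of fun i j : Fin N => Gx q a b i j x)
  rw [sum_exp_eq hq ha hb hab h3 hN, zpow_natCast] at h
  rw [← h]
  congr 1
  ext i j
  exact Mt_line u hu hx i j

/-- the value of `Gx` at `0` -/
noncomputable def Cm (q a b : ℕ) : Mat := fun i j =>
  if nn q a b j ≤ gF q a b + i then (((gF q a b + i - nn q a b j).factorial : ℂ))⁻¹ else 0

theorem Gx_zero {q : ℕ} (hq : 1 < q) (a b i j : ℕ) : Gx q a b i j 0 = Cm q a b i j := by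
  unfold Gx Cm
  rw [tsum_eq_single 0]
  · rw [mul_zero, add_zero, pow_zero, cc_zero, Complex.ofReal_one, one_mul, one_div]
  · intro p hp
    rw [zero_pow (Nat.mul_ne_zero (zero_lt_one.trans hq).ne' hp), zero_div, mul_zero, ite_self]

/-- PROOF. Uniform convergence on `‖x‖ ≤ 1/2`: the terms are at most `2^(-p)` (`cc_abs_le`);
`continuousOn_tsum`. -/
theorem Gx_cont {q : ℕ} (hq : 1 < q) (a b i j : ℕ) : ContinuousAt (Gx q a b i j) 0 := by
  have h : ContinuousOn (Gx q a b i j) (Metric.closedBall 0 (1 / 2)) := by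
    unfold Gx
    refine continuousOn_tsum (u := fun p : ℕ => (1 / 2 : ℝ) ^ p) (fun p => ?_)
      (summable_geometric_of_lt_one (by norm_num) (by norm_num)) fun p x hx => ?_
    · split_ifs
      · fun_prop
      · exact continuousOn_const
    · split_ifs
      · rw [mem_closedBall_zero_iff] at hx
        rw [norm_mul, norm_div, norm_pow, Complex.norm_real, Complex.norm_natCast]
        have h1 : ‖cc (bt q a b (nn q a b j)) p‖ ≤ 1 :=
          cc_abs_le (bt_nonneg _ _ _ _) (bt_lt_one hq _ _ _).le _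
        have h2 : ‖x‖ ^ (q * p) ≤ (1 / 2 : ℝ) ^ p := by
          calc ‖x‖ ^ (q * p) ≤ (1 / 2 : ℝ) ^ (q * p) :=
                pow_le_pow_left₀ (norm_nonneg _) hx _
            _ ≤ (1 / 2 : ℝ) ^ p := pow_le_pow_of_le_one (by norm_num) (by norm_num)
                (Nat.le_mul_of_pos_left p (zero_lt_one.trans hq))
        have h3 : (1 : ℝ) ≤ ((gF q a b + i + q * p - nn q a b j).factorial : ℝ) := by
          exact_mod_cast Nat.one_le_iff_ne_zero.2 (Nat.factorial_ne_zero _)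
        calc ‖cc (bt q a b (nn q a b j)) p‖ *
              (‖x‖ ^ (q * p) / ((gF q a b + i + q * p - nn q a b j).factorial : ℝ))
            ≤ 1 * (‖x‖ ^ (q * p) / 1) := by
              gcongr
          _ = ‖x‖ ^ (q * p) := by ring
          _ ≤ _ := h2
      · rw [norm_zero]
        positivity
  exact h.continuousAt (Metric.closedBall_mem_nhds 0 (by norm_num))

/-- PROOF. `det_inv_fact` with `h j = g + N - 1 - nn j` and the rows in reverse order `r = N - 1 - i`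
(`Matrix.det_permute` with `Fin.revPerm`): `nn j ≤ g + j ≤ g + N - 1`. -/
theorem Cm_det {q a b : ℕ} (hq : 1 < q) (ha : ¬ q ∣ a) (hb : ¬ q ∣ b) (hab : Nat.Coprime (a + b) q)
    (h3 : 3 ≤ q) (N : ℕ) : (trn (Cm q a b) N).det ≠ 0 := by
  have hj : ∀ j : Fin N, nn q a b j ≤ gF q a b + N - 1 := by
    intro j
    have h1 := nn_le hq ha hb hab h3 (j : ℕ)
    have h2 := j.2
    omega
  have h1 : trn (Cm q a b) N = (Matrix.of fun r j : Fin N =>
      if (r : ℕ) ≤ gF q a b + N - 1 - nn q a b j then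
        ((((gF q a b + N - 1 - nn q a b j) - r).factorial : ℂ))⁻¹ else 0).submatrix
      Fin.revPerm id := by
    ext i j
    have h2 := hj j
    have h4 := i.2
    have h5 : ((Fin.revPerm i : Fin N) : ℕ) = N - (i + 1) := by
      rw [Fin.revPerm_apply, Fin.val_rev]
    rw [Matrix.submatrix_apply, Matrix.of_apply, id, h5]
    change (if nn q a b j ≤ gF q a b + i then
      ((((gF q a b + i - nn q a b j).factorial : ℂ))⁻¹) else 0) = _
    by_cases h6 : nn q a b j ≤ gF q a b + i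
    · rw [if_pos h6, if_pos (by omega)]
      have h7 : gF q a b + N - 1 - nn q a b j - (N - (i + 1)) =
        gF q a b + i - nn q a b j := by omega
      rw [h7]
    · rw [if_neg h6, if_neg (by omega)]
  rw [h1, Matrix.det_permute]
  refine mul_ne_zero ?_ (det_inv_fact (fun j => gF q a b + N - 1 - nn q a b j) ?_)
  · exact_mod_cast (Equiv.Perm.sign _).ne_zero
  · intro x y hxy
    have h2 := hj x
    have h4 := hj y
    have h5 : nn q a b x = nn q a b y := by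
      simp only [] at hxy
      omega
    exact Fin.ext ((nn_strictMono hq hab).injective h5)

/-- PROOF. `PS.line`, `det_line`, `one_order` with `H x = det (Gx x)` (continuous at `0` by `Gx_cont`, a
polynomial in the entries), `Gx_zero`, `Cm_det`. -/
theorem coef_ne {q a b : ℕ} (hq : 1 < q) (ha : ¬ q ∣ a) (hb : ¬ q ∣ b) (hab : Nat.Coprime (a + b) q)
    (h3 : 3 ≤ q) {N : ℕ} (hN : q ≤ N) {c : (Phi q a b → ℕ) → ℂ}
    (hc : PS c (Fn q a b N)) (u : Phi q a b) (hu : kk q a b u = 1) :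
    c (Pi.single u (w0 q a b)) ≠ 0 := by
  have h1 : ∀ x : ℂ, HasSum (fun n : ℕ => c (Pi.single u n) * x ^ n)
      (Fn q a b N (Pi.single u x)) := fun x => hc.line u x
  have h2 := one_order (H := fun x => (Matrix.of fun i j : Fin N => Gx q a b i j x).det) h1
    (w0 q a b) (fun x hx => det_line hq ha hb hab h3 hN u hu hx) ?_
  · rw [h2.2]
    have h4 : (Matrix.of fun i j : Fin N => Gx q a b i j 0) = trn (Cm q a b) N := by
      ext i j
      simp only [Matrix.of_apply, trn]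
      exact Gx_zero hq a b i j
    rw [h4]
    exact Cm_det hq ha hb hab h3 N
  · simp only [Matrix.det_apply]
    refine tendsto_finsetSum _ fun σ _ => ?_
    refine Tendsto.const_smul ?_ _
    refine tendsto_finsetProd _ fun i _ => ?_
    simp only [Matrix.of_apply]
    exact Gx_cont hq a b _ _

theorem tau_rt' {q a b : ℕ} (hq : 1 < q) (ha : ¬ q ∣ a) (hb : ¬ q ∣ b) (hab : Nat.Coprime (a + b) q)
    (h3 : 3 ≤ q) : RT (q ^ q) 0 (tauF q a b) := by
  have hD : 1 ≤ q ^ q := Nat.one_le_pow _ _ (zero_lt_one.trans hq)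
  refine RT.lim hD (f := fun n => Fn q a b (n + q)) (fun n => ?_) fun R => ?_
  · exact Fn_RT hq ha hb hab h3 (Nat.le_add_left _ _)
  · intro u hu
    exact (tendsto_add_atTop_nat q).eventually (Fn_unif hq ha hb hab h3 R u hu)

theorem tau_diff (q a b : ℕ) (h3 : 3 ≤ q) (ha : ¬ q ∣ a)
    (hb : ¬ q ∣ b) (hab : Nat.Coprime (a + b) q) : Differentiable ℂ (tauF q a b) := by
  have hq : 1 < q := by omega
  exact RT.diff (Nat.one_le_pow _ _ (zero_lt_one.trans hq)) (tau_rt' hq ha hb hab h3)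

theorem tau_zero (q a b : ℕ) (h3 : 3 ≤ q) (ha : ¬ q ∣ a)
    (hb : ¬ q ∣ b) (hab : Nat.Coprime (a + b) q) : tauF q a b 0 = 0 := by
  have hq : 1 < q := by omega
  have h := Fn_tendsto hq ha hb hab h3 (0 : Phi q a b → ℂ)
  refine tendsto_nhds_unique h ?_
  refine tendsto_const_nhds.congr' ?_
  filter_upwards [eventually_gt_atTop 0] with N hN
  exact (det_zero hq ha hb hab hN).symm

/-- a uniform limit of `RT` functions, nonzero coefficients -/
theorem Td_lim {ι : Type} [Fintype ι] {D k : ℕ} (hD : 1 ≤ D) {f : ℕ → (ι → ℂ) → ℂ}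
    {c : ℕ → (ι → ℕ) → ℂ} (hc : ∀ n, PS (c n) (f n))
    (hi : ∀ n, ∀ m : ι → ℕ, ∃ a : ℤ,
      c n m * ((D : ℂ) ^ (∑ u, m u + k) * ∏ u, ((m u).factorial : ℂ)) = a)
    {F : (ι → ℂ) → ℂ} (hF : ∀ R : ℝ, TendstoUniformlyOn f F atTop (Metric.closedBall 0 R))
    (m : ι → ℕ) (hm : ∀ n, c n m ≠ 0) : ∃ C : (ι → ℕ) → ℂ, PS C F ∧ C m ≠ 0 := by
  obtain ⟨C, hC, hl⟩ := PS.lim hc hF
  refine ⟨C, hC, fun h0 => ?_⟩
  have h1 := (hl m).mul_const ((D : ℂ) ^ (∑ u, m u + k) * ∏ u, ((m u).factorial : ℂ))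
  rw [h0, zero_mul] at h1
  have h2 := h1.norm
  rw [norm_zero] at h2
  have h3 : ∀ n, (1 : ℝ) ≤ ‖c n m * ((D : ℂ) ^ (∑ u, m u + k) * ∏ u, ((m u).factorial : ℂ))‖ := by
    intro n
    obtain ⟨a, ha⟩ := hi n m
    have hne : c n m * ((D : ℂ) ^ (∑ u, m u + k) * ∏ u, ((m u).factorial : ℂ)) ≠ 0 := by
      refine mul_ne_zero (hm n) (mul_ne_zero (pow_ne_zero _ ?_) ?_)
      · exact_mod_cast (by omega : D ≠ 0)
      · exact Finset.prod_ne_zero_iff.2 fun u _ => by exact_mod_cast (m u).factorial_ne_zero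
    rw [ha] at hne ⊢
    have ha0 : a ≠ 0 := by
      intro h
      exact hne (by rw [h]; simp)
    rw [Complex.norm_intCast]
    exact_mod_cast Int.one_le_abs ha0
  have h4 := ge_of_tendsto' h2 h3
  linarith

theorem tau_ne (q a b : ℕ) (h3 : 3 ≤ q) (ha : ¬ q ∣ a)
    (hb : ¬ q ∣ b) (hab : Nat.Coprime (a + b) q) :
    ∃ t : Phi q a b → ℂ, (∀ u : Phi q a b, ¬ Nat.Coprime u q → t u = 0) ∧ tauF q a b t ≠ 0 := by
  have hq : 1 < q := by omega
  have hD : 1 ≤ q ^ q := Nat.one_le_pow _ _ (zero_lt_one.trans hq)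
  obtain ⟨u, hu, huq⟩ := exists_kk_one hq ha hb hab
  have hRT : ∀ n, RT (q ^ q) 0 (Fn q a b (n + q)) := fun n =>
    Fn_RT hq ha hb hab h3 (Nat.le_add_left _ _)
  choose c hc hi using fun n => (RT_iff hD).1 (hRT n)
  obtain ⟨C, hC, hCm⟩ := Td_lim hD hc hi (F := tauF q a b) (fun R => by
    intro v hv
    exact (tendsto_add_atTop_nat q).eventually (Fn_unif hq ha hb hab h3 R v hv))
    (Pi.single u (w0 q a b))
    (fun n => coef_ne hq ha hb hab h3 (Nat.le_add_left _ _) (hc n) u hu)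
  by_contra hcon
  push Not at hcon
  have h1 : ∀ x : ℂ, tauF q a b (Pi.single u x) = 0 := by
    intro x
    refine hcon _ fun v hv => ?_
    refine Pi.single_eq_of_ne ?_ _
    rintro rfl
    exact hv huq
  have h2 : ∀ x : ℂ, HasSum (fun n : ℕ => C (Pi.single u n) * x ^ n) 0 := by
    intro x
    rw [← h1 x]
    exact hC.line u x
  have h4 := one_unique (c := fun n => C (Pi.single u n)) (d := fun _ => 0) (f := fun _ => 0) h2
    (fun x => by simpa using (hasSum_zero : HasSum (fun _ : ℕ => (0 : ℂ)) 0))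
  exact hCm (congrFun h4 (w0 q a b))

theorem tau_rt (q a b : ℕ) (h3 : 3 ≤ q) (ha : ¬ q ∣ a)
    (hb : ¬ q ∣ b) (hab : Nat.Coprime (a + b) q) : ∃ D : ℕ, 1 ≤ D ∧ RT D 1 (tauF q a b) := by
  have hq : 1 < q := by omega
  have hD : 1 ≤ q ^ q := Nat.one_le_pow _ _ (zero_lt_one.trans hq)
  exact ⟨q ^ q, hD, RT.mono hD hD dvd_rfl (Nat.zero_le 1) (tau_rt' hq ha hb hab h3)⟩

theorem tau_sym (q a b : ℕ) (h3 : 3 ≤ q) (ha : ¬ q ∣ a)
    (hb : ¬ q ∣ b) (hab : Nat.Coprime (a + b) q) : ∃ w : ℕ, ∀ z : Phi q a b → ℂ,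
      tauF q a b (fun u => zt q ^ ((u : ℕ) * (a + b)) * z u) = zt q ^ w * tauF q a b z := by
  have hq : 1 < q := by omega
  refine ⟨w0 q a b, fun z => ?_⟩
  have h0 : (fun u : Phi q a b => zt q ^ ((u : ℕ) * (a + b)) * z u) =
      fun u : Phi q a b => zt q ^ kk q a b u * z u := funext fun u => by rw [zt_pow_kk hq u]
  rw [h0]
  have h1 := Fn_tendsto hq ha hb hab h3 (fun u : Phi q a b => zt q ^ kk q a b u * z u)
  have h2 := (Fn_tendsto hq ha hb hab h3 z).const_mul (zt q ^ w0 q a b)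
  refine tendsto_nhds_unique h1 (h2.congr' ?_)
  filter_upwards [eventually_ge_atTop q] with N hN
  exact (det_root hq ha hb hab h3 hN (zt_pow_q hq) z).symm

end Pool.Agent.Helper65.LU
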